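import Pool.Agent.Lib.MP_343ccd_co.Mat
import Pool.Agent.Lib.MP_343ccd_co.LemJ

/-!
# MP_343ccd_co, two-degenerate triangle-free graphs: definitions

A new vertex `v` with two non-adjacent old neighbours, whose triples are `a` and `b`, gets the
triple `x` given by `xv`: with `sum α i • a i = sum β i • b i`, `d i = α i • a i - β i • b i`,
`sg i = τ (i+1) - τ (i+2)`, `P = sg 0 • d 1 - sg 1 • d 0` the triple is
`x i = (sg (i+1) * sg (i+2) * α i) • a i + τ i • P`; it is in perspective with `a` (centre `P`) and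
with `b`.
-/

namespace Prism.TD

/-- determinant of four vectors -/
def det4 {R : Type*} [CommRing R] (a b c d : Fin 4 → R) : R :=
  Matrix.det (Matrix.of ![a, b, c, d])

/-- six vectors in general position -/
def GP {K : Type*} [Field K] (a b : Fin 3 → Fin 4 → K) : Prop :=
  (∀ i j : Fin 3, det4 (a (i + 1)) (a (i + 2)) (b (j + 1)) (b (j + 2)) ≠ 0) ∧
  (∀ i : Fin 3, det4 (a 0) (a 1) (a 2) (b i) ≠ 0) ∧
  (∀ i : Fin 3, det4 (b 0) (b 1) (b 2) (a i) ≠ 0)

/-- both `y` and `z` lie in the span of `p` and `q` -/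
def InLine {K : Type*} [Field K] (p q y z : Fin 4 → K) : Prop :=
  y ∈ Submodule.span K {p, q} ∧ z ∈ Submodule.span K {p, q}

/-- the differences of the parameters -/
def sg {R : Type*} [CommRing R] (τ : Fin 3 → R) (i : Fin 3) : R := τ (i + 1) - τ (i + 2)

/-- `d i` -/
def dv {R : Type*} [CommRing R] (a b : Fin 3 → Fin 4 → R) (α β : Fin 3 → R) (i : Fin 3) :
    Fin 4 → R := α i • a i - β i • b i

/-- the centre -/
def pv {R : Type*} [CommRing R] (a b : Fin 3 → Fin 4 → R) (α β τ : Fin 3 → R) : Fin 4 → R :=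
  sg τ 0 • dv a b α β 1 - sg τ 1 • dv a b α β 0

/-- the new triple -/
def xv {R : Type*} [CommRing R] (a b : Fin 3 → Fin 4 → R) (α β τ : Fin 3 → R) (i : Fin 3) :
    Fin 4 → R := (sg τ (i + 1) * sg τ (i + 2) * α i) • a i + τ i • pv a b α β τ

/-- `(α, β)` is a relation between the `a i` and the `b i` -/
def Rel {R : Type*} [CommRing R] (a b : Fin 3 → Fin 4 → R) (α β : Fin 3 → R) : Prop :=
  α 0 • a 0 + α 1 • a 1 + α 2 • a 2 = β 0 • b 0 + β 1 • b 1 + β 2 • b 2

/-- polynomial functions of `n` parameters -/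
def IsPoly {K : Type*} [Field K] {n : ℕ} (F : (Fin n → K) → K) : Prop :=
  ∃ p : MvPolynomial (Fin n) K, ∀ x, F x = MvPolynomial.eval x p

variable {V : Type*} [DecidableEq V]

/-- the family of the kept crossing sets; `Kp u v i` says that the crossing set of `u`, `v` without
the letter `i` is kept -/
def HK (Kp : V → V → Fin 3 → Prop) (T : Finset (V × Fin 3)) : Prop :=
  ∃ u v i, Kp u v i ∧ T = crossSet u v i

/-- `φ` represents the part over `S` -/
def Good {K : Type*} [Field K] (Kp : V → V → Fin 3 → Prop) (S : Finset V)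
    (φ : V × Fin 3 → Fin 4 → K) : Prop :=
  (∀ T : Finset (V × Fin 3), (∀ x ∈ T, x.1 ∈ S) → T.card = 4 →
    (LinearIndepOn K φ (T : Set (V × Fin 3)) ↔ ¬ HK Kp T)) ∧
  (∀ T : Finset (V × Fin 3), (∀ x ∈ T, x.1 ∈ S) → T.card = 3 →
    LinearIndepOn K φ (T : Set (V × Fin 3)))

end Prism.TD
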