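import Pool.Agent.Lib.PrismTD.Defs

/-!
# MP_343ccd_co, two-degenerate graphs: determinants and generic parameters
-/

namespace Prism.TD

variable {K : Type*} [Field K]

theorem det4_ne_zero_iff (a b c d : Fin 4 → K) :
    det4 a b c d ≠ 0 ↔ LinearIndependent K ![a, b, c, d] := by
  unfold det4
  rw [← isUnit_iff_ne_zero, ← Matrix.isUnit_iff_isUnit_det,
    ← Matrix.linearIndependent_rows_iff_isUnit]
  rfl

theorem IsPoly.const {n : ℕ} (c : K) : IsPoly (fun _ : Fin n → K => c) :=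
  ⟨MvPolynomial.C c, fun x => by simp⟩

theorem IsPoly.coord {n : ℕ} (i : Fin n) : IsPoly (fun x : Fin n → K => x i) :=
  ⟨MvPolynomial.X i, fun x => by simp⟩

theorem IsPoly.add {n : ℕ} {F G : (Fin n → K) → K} (hF : IsPoly F) (hG : IsPoly G) :
    IsPoly (fun x => F x + G x) := by
  obtain ⟨p, hp⟩ := hF
  obtain ⟨q, hq⟩ := hG
  exact ⟨p + q, fun x => by simp only [hp, hq, map_add]⟩

theorem IsPoly.mul {n : ℕ} {F G : (Fin n → K) → K} (hF : IsPoly F) (hG : IsPoly G) :
    IsPoly (fun x => F x * G x) := by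
  obtain ⟨p, hp⟩ := hF
  obtain ⟨q, hq⟩ := hG
  exact ⟨p * q, fun x => by simp only [hp, hq, map_mul]⟩

theorem IsPoly.sub {n : ℕ} {F G : (Fin n → K) → K} (hF : IsPoly F) (hG : IsPoly G) :
    IsPoly (fun x => F x - G x) := by
  obtain ⟨p, hp⟩ := hF
  obtain ⟨q, hq⟩ := hG
  exact ⟨p - q, fun x => by simp only [hp, hq, map_sub]⟩

theorem IsPoly.det4 {n : ℕ} {A B C D : (Fin n → K) → Fin 4 → K}
    (hA : ∀ j, IsPoly (fun x => A x j)) (hB : ∀ j, IsPoly (fun x => B x j))
    (hC : ∀ j, IsPoly (fun x => C x j)) (hD : ∀ j, IsPoly (fun x => D x j)) :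
    IsPoly (fun x => TD.det4 (A x) (B x) (C x) (D x)) := by
  choose p hp using hA
  choose q hq using hB
  choose r hr using hC
  choose s hs using hD
  refine ⟨TD.det4 p q r s, fun x => ?_⟩
  have h : (MvPolynomial.eval x).mapMatrix (Matrix.of ![p, q, r, s]) =
      Matrix.of ![A x, B x, C x, D x] := by
    ext i j
    rw [RingHom.mapMatrix_apply, Matrix.map_apply]
    fin_cases i
    · exact (hp j x).symm
    · exact (hq j x).symm
    · exact (hr j x).symm
    · exact (hs j x).symm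
  change Matrix.det (Matrix.of ![A x, B x, C x, D x]) =
    MvPolynomial.eval x (Matrix.det (Matrix.of ![p, q, r, s]))
  rw [RingHom.map_det, h]

theorem exists_common [Infinite K] {n : ℕ} {ι : Type*} [Finite ι] (F : ι → (Fin n → K) → K)
    (hF : ∀ i, IsPoly (F i)) (hne : ∀ i, ∃ x, F i x ≠ 0) : ∃ x, ∀ i, F i x ≠ 0 := by
  classical
  have := Fintype.ofFinite ι
  choose p hp using hF
  have h0 : ∀ i, p i ≠ 0 := by
    intro i h
    obtain ⟨x, hx⟩ := hne i
    rw [hp, h, map_zero] at hx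
    exact hx rfl
  have hprod : ∏ i, p i ≠ 0 := Finset.prod_ne_zero_iff.mpr fun i _ => h0 i
  obtain ⟨x, hx⟩ : ∃ x, MvPolynomial.eval x (∏ i, p i) ≠ 0 := by
    by_contra hcon
    push Not at hcon
    exact hprod (MvPolynomial.funext fun x => by rw [hcon x, map_zero])
  refine ⟨x, fun i => ?_⟩
  rw [map_prod] at hx
  rw [hp]
  exact Finset.prod_ne_zero_iff.mp hx i (Finset.mem_univ i)

end Prism.TD
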