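import Pool.Agent.Lib.PrismTD.S1

/-! S9: change of one vector of `a`, so that one side changes. -/

namespace Prism.TD

open Submodule

variable {K : Type*} [Field K] [Infinite K]

omit [Infinite K] in
private theorem s9_pair_le (p q : Fin 4 → K) : Module.finrank K (span K {p, q}) ≤ 2 := by
  have h := finrank_range_le_card (R := K) ![p, q]
  rw [Matrix.range_cons_cons_empty] at h
  simpa [Set.finrank] using h

omit [Infinite K] in
private theorem s9_eq {p q y z : Fin 4 → K} (hi : LinearIndependent K ![y, z])
    (h : InLine p q y z) : span K {y, z} = span K {p, q} := by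
  have h2 := finrank_span_eq_card hi
  rw [Matrix.range_cons_cons_empty] at h2
  refine Submodule.eq_of_le_of_finrank_le ?_ ?_
  · rw [span_le]
    rintro w (rfl | rfl)
    · exact h.1
    · exact h.2
  · rw [h2]
    exact s9_pair_le p q

private theorem s9_fin : ∀ i j : Fin 3, j = i ∨ j = i + 1 ∨ j = i + 2 := by
  decide

omit [Infinite K] in
private theorem s9_unique {a : Fin 3 → Fin 4 → K} (ha : LinearIndependent K a) (i : Fin 3)
    {κ κ' : K} {y z : Fin 4 → K} (hi : LinearIndependent K ![y, z])
    (h : InLine (a (i + 1) + κ • a i) (a (i + 2)) y z)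
    (h' : InLine (a (i + 1) + κ' • a i) (a (i + 2)) y z) : κ = κ' := by
  by_contra hne
  have e := s9_eq hi h
  have e' := s9_eq hi h'
  have hW : ∀ j, a j ∈ span K {y, z} := by
    have m1 : a (i + 1) + κ • a i ∈ span K {y, z} := by
      rw [e]; exact subset_span (Set.mem_insert _ _)
    have m1' : a (i + 1) + κ' • a i ∈ span K {y, z} := by
      rw [e']; exact subset_span (Set.mem_insert _ _)
    have m2 : a (i + 2) ∈ span K {y, z} := by
      rw [e]; exact subset_span (Set.mem_insert_of_mem _ rfl)
    have m3 : a i ∈ span K {y, z} := by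
      have h3 := sub_mem m1 m1'
      have h4 : a (i + 1) + κ • a i - (a (i + 1) + κ' • a i) = (κ - κ') • a i := by
        rw [sub_smul]; abel
      rw [h4, Submodule.smul_mem_iff _ (sub_ne_zero.2 hne)] at h3
      exact h3
    have m4 : a (i + 1) ∈ span K {y, z} := by
      have h3 := sub_mem m1 (smul_mem _ κ m3)
      rwa [add_sub_cancel_right] at h3
    intro j
    have hj : j = i ∨ j = i + 1 ∨ j = i + 2 := s9_fin i j
    rcases hj with rfl | rfl | rfl
    · exact m3
    · exact m4
    · exact m2
  have h3 := finrank_span_eq_card ha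
  have h4 : span K (Set.range a) ≤ span K {y, z} := by
    rw [span_le]
    rintro _ ⟨j, rfl⟩
    exact hW j
  have h5 := Submodule.finrank_mono h4
  have h6 := s9_pair_le y z
  rw [h3, Fintype.card_fin] at h5
  omega

omit [Infinite K] in
private theorem s9_li {a b : Fin 3 → Fin 4 → K} (h : GP a b) : LinearIndependent K a := by
  have h1 := (det4_ne_zero_iff _ _ _ _).1 (h.2.1 0)
  have h2 := h1.comp (Fin.castSucc : Fin 3 → Fin 4) (Fin.castSucc_injective 3)
  have e : (![a 0, a 1, a 2, b 0] : Fin 4 → Fin 4 → K) ∘ (Fin.castSucc : Fin 3 → Fin 4) = a := by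
    funext j
    fin_cases j <;> rfl
  rwa [e] at h2

/-- S9: change of one vector of `a`, so that one side changes -/
theorem modify {E : Type*} [Finite E] (φ : E → Fin 4 → K) (a b : Fin 3 → Fin 4 → K)
    (h : GP a b) (i : Fin 3) :
    ∃ κ : K, GP (Function.update a (i + 1) (a (i + 1) + κ • a i)) b ∧
      ∀ e f, LinearIndependent K ![φ e, φ f] →
        ¬ InLine (a (i + 1) + κ • a i) (a (i + 2)) (φ e) (φ f) := by
  classical
  have hli := s9_li h
  -- the bad parameter of two vectors
  have hbad : ∀ q : E × E, ∃ c : K, LinearIndependent K ![φ q.1, φ q.2] → ∀ κ : K,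
      InLine (a (i + 1) + κ • a i) (a (i + 2)) (φ q.1) (φ q.2) → κ = c := by
    intro q
    by_cases hq : ∃ c : K, InLine (a (i + 1) + c • a i) (a (i + 2)) (φ q.1) (φ q.2)
    · obtain ⟨c, hc⟩ := hq
      exact ⟨c, fun hi κ hκ => s9_unique hli i hi hκ hc⟩
    · exact ⟨0, fun _ κ hκ => absurd ⟨κ, hκ⟩ hq⟩
  choose c hc using hbad
  have hp : ∀ k r, IsPoly (fun x : Fin 1 → K =>
      Function.update a (i + 1) (a (i + 1) + x 0 • a i) k r) := by
    intro k r
    by_cases hk : k = i + 1
    · subst hk
      have e : (fun x : Fin 1 → K =>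
          Function.update a (i + 1) (a (i + 1) + x 0 • a i) (i + 1) r) =
          fun x => a (i + 1) r + x 0 * a i r := by
        funext x
        rw [Function.update_self]
        rfl
      rw [e]
      exact (IsPoly.const _).add ((IsPoly.coord 0).mul (IsPoly.const _))
    · have e : (fun x : Fin 1 → K =>
          Function.update a (i + 1) (a (i + 1) + x 0 • a i) k r) = fun _ => a k r := by
        funext x
        rw [Function.update_of_ne hk]
      rw [e]
      exact IsPoly.const _
  have h0 : Function.update a (i + 1) (a (i + 1) + (0 : Fin 1 → K) 0 • a i) = a := by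
    rw [Pi.zero_apply, zero_smul, add_zero, Function.update_eq_self]
  obtain ⟨x, hx⟩ := exists_common (n := 1)
    (ι := (Fin 3 × Fin 3) ⊕ (Fin 3 ⊕ (Fin 3 ⊕ (E × E))))
    (Sum.elim
      (fun q x => det4 (Function.update a (i + 1) (a (i + 1) + x 0 • a i) (q.1 + 1))
        (Function.update a (i + 1) (a (i + 1) + x 0 • a i) (q.1 + 2)) (b (q.2 + 1)) (b (q.2 + 2)))
      (Sum.elim
        (fun j x => det4 (Function.update a (i + 1) (a (i + 1) + x 0 • a i) 0)
          (Function.update a (i + 1) (a (i + 1) + x 0 • a i) 1)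
          (Function.update a (i + 1) (a (i + 1) + x 0 • a i) 2) (b j))
        (Sum.elim
          (fun j x => det4 (b 0) (b 1) (b 2)
            (Function.update a (i + 1) (a (i + 1) + x 0 • a i) j))
          (fun q x => x 0 - c q))))
    (by
      rintro (q | j | j | q)
      · exact IsPoly.det4 (hp _) (hp _) (fun _ => IsPoly.const _) (fun _ => IsPoly.const _)
      · exact IsPoly.det4 (hp _) (hp _) (hp _) (fun _ => IsPoly.const _)
      · exact IsPoly.det4 (fun _ => IsPoly.const _) (fun _ => IsPoly.const _)
          (fun _ => IsPoly.const _) (hp _)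
      · exact (IsPoly.coord 0).sub (IsPoly.const _))
    (by
      rintro (q | j | j | q)
      · refine ⟨0, ?_⟩
        simp only [Sum.elim_inl]
        rw [h0]
        exact h.1 q.1 q.2
      · refine ⟨0, ?_⟩
        simp only [Sum.elim_inl, Sum.elim_inr]
        rw [h0]
        exact h.2.1 j
      · refine ⟨0, ?_⟩
        simp only [Sum.elim_inl, Sum.elim_inr]
        rw [h0]
        exact h.2.2 j
      · refine ⟨fun _ => c q + 1, ?_⟩
        simp)
  refine ⟨x 0, ⟨fun k j => hx (Sum.inl (k, j)), fun j => hx (Sum.inr (Sum.inl j)),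
    fun j => hx (Sum.inr (Sum.inr (Sum.inl j)))⟩, fun e f hi hin => ?_⟩
  exact hx (Sum.inr (Sum.inr (Sum.inr (e, f)))) (sub_eq_zero.2 (hc (e, f) hi _ hin))

end Prism.TD
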