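import Pool.Agent.Lib.PrismTD.S8
import Pool.Agent.Lib.PrismTD.S9

/-!
# MP_343ccd_co, two-degenerate graphs: the two slots of a new vertex
-/

namespace Prism.TD

open Submodule

section lin
variable {K : Type*} [Field K]

private theorem det4_swap {a b c d : Fin 4 → K} (h : det4 a b c d ≠ 0) : det4 c d a b ≠ 0 := by
  rw [det4_ne_zero_iff] at h ⊢
  have h2 := h.comp (![2, 3, 0, 1] : Fin 4 → Fin 4) (by decide)
  convert h2 using 1
  ext i j
  fin_cases i <;> rfl

private theorem gp_symm {a b : Fin 3 → Fin 4 → K} (h : GP a b) : GP b a :=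
  ⟨fun i j => det4_swap (h.1 j i), h.2.2, h.2.1⟩

/-- a pair of independent vectors in a line spans it -/
private theorem span_eq_of_inLine {p q y z : Fin 4 → K} (hi : LinearIndependent K ![y, z])
    (h : InLine p q y z) : span K {y, z} = span K {p, q} := by
  refine Submodule.eq_of_le_of_finrank_le ?_ ?_
  · rw [span_le]
    intro x hx
    rcases hx with rfl | hx
    · exact h.1
    · rw [Set.mem_singleton_iff] at hx
      subst hx
      exact h.2
  · have h1 : Module.finrank K (span K (Set.range ![y, z])) = 2 := by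
      rw [finrank_span_eq_card hi]
      rfl
    have h2 : Set.range ![y, z] = {y, z} := by
      simp [Matrix.range_cons, Matrix.range_empty, Set.pair_comm]
    rw [h2] at h1
    rw [h1]
    classical
    have h3 := finrank_span_finset_le_card (R := K) ({p, q} : Finset (Fin 4 → K))
    have h4 : (({p, q} : Finset (Fin 4 → K)) : Set (Fin 4 → K)) = {p, q} := by simp
    rw [h4] at h3
    exact le_trans h3 Finset.card_le_two

private theorem span_add_smul (x y : Fin 4 → K) (κ : K) :
    span K {x, y} = span K {x, y + κ • x} := by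
  apply le_antisymm
  · rw [span_le]
    intro w hw
    rcases hw with rfl | hw
    · exact subset_span (by simp)
    · rw [Set.mem_singleton_iff] at hw
      subst hw
      rw [SetLike.mem_coe, mem_span_pair]
      exact ⟨-κ, 1, by module⟩
  · rw [span_le]
    intro w hw
    rcases hw with rfl | hw
    · exact subset_span (by simp)
    · rw [Set.mem_singleton_iff] at hw
      subst hw
      rw [SetLike.mem_coe, mem_span_pair]
      exact ⟨κ, 1, by module⟩

end lin

section good
variable {V : Type*} [DecidableEq V] {K : Type*} [Field K]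
  {Kp : V → V → Fin 3 → Prop} {S : Finset V} {φ : V × Fin 3 → Fin 4 → K}

private theorem good3 (hφ : Good Kp S φ) {x y z : V × Fin 3} (hx : x.1 ∈ S) (hy : y.1 ∈ S)
    (hz : z.1 ∈ S) (hxy : x ≠ y) (hxz : x ≠ z) (hyz : y ≠ z) :
    LinearIndependent K ![φ x, φ y, φ z] := by
  have h := hφ.2 {x, y, z} (by
    intro w hw
    simp only [Finset.mem_insert, Finset.mem_singleton] at hw
    rcases hw with rfl | rfl | rfl <;> assumption) (by
    rw [Finset.card_insert_of_notMem, Finset.card_insert_of_notMem, Finset.card_singleton] <;>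
      simp [hxy, hxz, hyz])
  have h2 := LinearIndependent.comp h
    (![⟨x, by simp⟩, ⟨y, by simp⟩, ⟨z, by simp⟩] :
      Fin 3 → (({x, y, z} : Finset (V × Fin 3)) : Set (V × Fin 3)))
    (by
      intro i j hij
      fin_cases i <;> fin_cases j <;> simp_all [Subtype.ext_iff])
  convert h2 using 1
  ext i j
  fin_cases i <;> rfl

private theorem good4 (hφ : Good Kp S φ) {x y z w : V × Fin 3} (hx : x.1 ∈ S) (hy : y.1 ∈ S)
    (hz : z.1 ∈ S) (hw : w.1 ∈ S) (hxy : x ≠ y) (hxz : x ≠ z) (hxw : x ≠ w) (hyz : y ≠ z)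
    (hyw : y ≠ w) (hzw : z ≠ w) (hH : ¬ HK Kp {x, y, z, w}) :
    det4 (φ x) (φ y) (φ z) (φ w) ≠ 0 := by
  have h := (hφ.1 {x, y, z, w} (by
    intro t ht
    simp only [Finset.mem_insert, Finset.mem_singleton] at ht
    rcases ht with rfl | rfl | rfl | rfl <;> assumption) (by
    rw [Finset.card_insert_of_notMem, Finset.card_insert_of_notMem,
      Finset.card_insert_of_notMem, Finset.card_singleton] <;>
      simp [hxy, hxz, hxw, hyz, hyw, hzw])).2 hH
  rw [det4_ne_zero_iff]
  have h2 := LinearIndependent.comp h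
    (![⟨x, by simp⟩, ⟨y, by simp⟩, ⟨z, by simp⟩, ⟨w, by simp⟩] :
      Fin 4 → (({x, y, z, w} : Finset (V × Fin 3)) : Set (V × Fin 3)))
    (by
      intro i j hij
      fin_cases i <;> fin_cases j <;> simp_all [Subtype.ext_iff])
  convert h2 using 1
  ext i j
  fin_cases i <;> rfl

private theorem good2 (hφ : Good Kp S φ) {x y : V × Fin 3} (hx : x.1 ∈ S) (hy : y.1 ∈ S)
    (hxy : x ≠ y) : LinearIndependent K ![φ x, φ y] := by
  obtain ⟨k, hk1, hk2⟩ : ∃ k : Fin 3, x.2 ≠ k ∧ y.2 ≠ k := by
    generalize x.2 = i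
    generalize y.2 = j
    revert i j
    decide
  have h := good3 hφ hx hy (z := (x.1, k)) hx hxy
    (fun h => hk1 (congrArg Prod.snd h)) (fun h => hk2 (congrArg Prod.snd h))
  have h2 := h.comp (![0, 1] : Fin 2 → Fin 3) (by decide)
  convert h2 using 1
  ext i j
  fin_cases i <;> rfl

/-- two elements in the line of two elements -/
private theorem line_set (hφ : Good Kp S φ) {e f x y : V × Fin 3} (he : e.1 ∈ S) (hf : f.1 ∈ S)
    (hx : x.1 ∈ S) (hy : y.1 ∈ S) (hef : e ≠ f) (hxy : x ≠ y)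
    (h : InLine (φ x) (φ y) (φ e) (φ f)) : ({e, f} : Finset (V × Fin 3)) = {x, y} := by
  have key : ∀ g : V × Fin 3, g.1 ∈ S → φ g ∈ span K {φ x, φ y} → g = x ∨ g = y := by
    intro g hg hgs
    by_contra hcon
    rw [not_or] at hcon
    have h3 := good3 hφ hg hx hy hcon.1 hcon.2 hxy
    have h4 := (linearIndependent_finCons (x := φ g) (v := ![φ x, φ y])).1 h3
    apply h4.2
    have h2 : Set.range ![φ x, φ y] = {φ x, φ y} := by
      simp [Matrix.range_cons, Matrix.range_empty, Set.pair_comm]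
    rw [h2]
    exact hgs
  rcases key e he h.1 with rfl | rfl <;> rcases key f hf h.2 with rfl | rfl
  · exact absurd rfl hef
  · rfl
  · exact Finset.pair_comm _ _
  · exact absurd rfl hef

private theorem slot_generic (hφ : Good Kp S φ) (a : Fin 3 → Fin 4 → K)
    (ha : ∀ (i : Fin 3) (e f : {e : V × Fin 3 // e.1 ∈ S}), a i ∉ span K {φ e.1, φ f.1})
    (i : Fin 3) (e f : V × Fin 3) (he : e.1 ∈ S) (hf : f.1 ∈ S) (hef : e ≠ f) :
    ¬ InLine (a (i + 1)) (a (i + 2)) (φ e) (φ f) := by
  intro h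
  have h1 := span_eq_of_inLine (good2 hφ he hf hef) h
  apply ha (i + 1) ⟨e, he⟩ ⟨f, hf⟩
  rw [h1]
  exact subset_span (by simp)

private theorem slot_nbr [Infinite K] (hφ : Good Kp S φ) {u v : V} (hu : u ∈ S)
    (htwo : ∀ i j : Fin 3, i ≠ j → Kp u v i ∨ Kp u v j) (b : Fin 3 → Fin 4 → K)
    (h : GP (fun i => φ (u, i)) b) :
    ∃ a : Fin 3 → Fin 4 → K, GP a b ∧
      (∀ i, Kp u v i → span K {φ (u, i + 1), φ (u, i + 2)} = span K {a (i + 1), a (i + 2)}) ∧
      (∀ i e f, e.1 ∈ S → f.1 ∈ S → e ≠ f → InLine (a (i + 1)) (a (i + 2)) (φ e) (φ f) →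
        Kp u v i ∧ ({e, f} : Finset (V × Fin 3)) = {(u, i + 1), (u, i + 2)}) := by
  have hne12 : ∀ i : Fin 3, i + 1 ≠ i + 2 := by decide
  have hln : ∀ (i : Fin 3) (e f : V × Fin 3), e.1 ∈ S → f.1 ∈ S → e ≠ f →
      InLine (φ (u, i + 1)) (φ (u, i + 2)) (φ e) (φ f) →
      ({e, f} : Finset (V × Fin 3)) = {(u, i + 1), (u, i + 2)} := by
    intro i e f he hf hef hl
    exact line_set hφ he hf hu hu hef (fun h => hne12 i (congrArg Prod.snd h)) hl
  by_cases hall : ∀ i, Kp u v i
  · exact ⟨fun i => φ (u, i), h, fun i _ => rfl,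
      fun i e f he hf hef hl => ⟨hall i, hln i e f he hf hef hl⟩⟩
  push Not at hall
  obtain ⟨i0, hi0⟩ := hall
  have hkeep : ∀ j, j ≠ i0 → Kp u v j := by
    intro j hj
    rcases htwo j i0 hj with h1 | h1
    · exact h1
    · exact absurd h1 hi0
  have hfin : Finite {e : V × Fin 3 // e.1 ∈ S} := by
    apply Set.Finite.to_subtype (s := {e : V × Fin 3 | e.1 ∈ S})
    apply Set.Finite.subset (S ×ˢ (Finset.univ : Finset (Fin 3))).finite_toSet
    intro e he
    simpa using he
  obtain ⟨κ, hGP, hκ⟩ := modify (fun e : {e : V × Fin 3 // e.1 ∈ S} => φ e.1)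
    (fun i => φ (u, i)) b h i0
  set a : Fin 3 → Fin 4 → K := Function.update (fun i => φ (u, i)) (i0 + 1)
    (φ (u, i0 + 1) + κ • φ (u, i0)) with ha
  have ha1 : a (i0 + 1) = φ (u, i0 + 1) + κ • φ (u, i0) := by
    rw [ha, Function.update_self]
  have ha2 : ∀ j, j ≠ i0 + 1 → a j = φ (u, j) := by
    intro j hj
    rw [ha, Function.update_of_ne hj]
  have hside : ∀ j, j ≠ i0 → span K {φ (u, j + 1), φ (u, j + 2)} =
      span K {a (j + 1), a (j + 2)} := by
    intro j hj
    have hc : j = i0 + 1 ∨ j = i0 + 2 := by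
      have hd : ∀ j i0 : Fin 3, j ≠ i0 → j = i0 + 1 ∨ j = i0 + 2 := by decide
      exact hd j i0 hj
    rcases hc with rfl | rfl
    · rw [ha2 (i0 + 1 + 1) (by clear * -; revert i0; decide),
        ha2 (i0 + 1 + 2) (by clear * -; revert i0; decide)]
    · have e1 : i0 + 2 + 1 = i0 := by clear * -; revert i0; decide
      have e2 : i0 + 2 + 2 = i0 + 1 := by clear * -; revert i0; decide
      rw [e1, e2, ha1, ha2 i0 (by clear * -; revert i0; decide)]
      exact span_add_smul _ _ _
  refine ⟨a, hGP, ?_, ?_⟩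
  · intro i hi
    apply hside
    rintro rfl
    exact hi0 hi
  · intro i e f he hf hef hl
    by_cases hi : i = i0
    · subst hi
      exfalso
      apply hκ ⟨e, he⟩ ⟨f, hf⟩ (good2 hφ he hf hef)
      rw [ha1, ha2 (i + 2) (by clear * -; revert i; decide)] at hl
      exact hl
    · refine ⟨hkeep i hi, hln i e f he hf hef ?_⟩
      unfold InLine at hl ⊢
      rw [hside i hi]
      exact hl

end good

section step
variable {V : Type*} [DecidableEq V] {K : Type*} [Field K]

/-- S10: the two slots of a new vertex -/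
theorem slots [Infinite K] (G : SimpleGraph V) [DecidableRel G.Adj] (hG : G.CliqueFree 3)
    (Kp : V → V → Fin 3 → Prop)
    (hadj : ∀ u v i, Kp u v i → G.Adj u v) (hsymm : ∀ u v i, Kp u v i → Kp v u i)
    (htwo : ∀ u v i j, G.Adj u v → i ≠ j → Kp u v i ∨ Kp u v j)
    (S : Finset V) (v : V) (hv : v ∉ S) (hN : {u ∈ S | G.Adj u v}.card ≤ 2)
    (φ : V × Fin 3 → Fin 4 → K) (hφ : Good Kp S φ) :
    ∃ a b : Fin 3 → Fin 4 → K, GP a b ∧
      (∀ u ∈ S, ∀ i, Kp u v i →
        span K {φ (u, i + 1), φ (u, i + 2)} = span K {a (i + 1), a (i + 2)} ∨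
        span K {φ (u, i + 1), φ (u, i + 2)} = span K {b (i + 1), b (i + 2)}) ∧
      (∀ i e f, e.1 ∈ S → f.1 ∈ S → e ≠ f →
        (InLine (a (i + 1)) (a (i + 2)) (φ e) (φ f) ∨ InLine (b (i + 1)) (b (i + 2)) (φ e) (φ f)) →
        ∃ u, Kp u v i ∧ ({e, f} : Finset (V × Fin 3)) = {(u, i + 1), (u, i + 2)}) := by
  have hfin : Finite {e : V × Fin 3 // e.1 ∈ S} := by
    apply Set.Finite.to_subtype (s := {e : V × Fin 3 | e.1 ∈ S})
    apply Set.Finite.subset (S ×ˢ (Finset.univ : Finset (Fin 3))).finite_toSet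
    intro e he
    simpa using he
  obtain h0 | h1 | h2 : {u ∈ S | G.Adj u v}.card = 0 ∨ {u ∈ S | G.Adj u v}.card = 1 ∨
      {u ∈ S | G.Adj u v}.card = 2 := by omega
  · -- no neighbour
    rw [Finset.card_eq_zero] at h0
    have hno : ∀ u ∈ S, ¬ G.Adj u v := by
      intro u hu hA
      have : u ∈ ({u ∈ S | G.Adj u v} : Finset V) := by simp [hu, hA]
      rw [h0] at this
      simp at this
    obtain ⟨a, ha, ha'⟩ := generic_triple (fun e : {e : V × Fin 3 // e.1 ∈ S} => φ e.1)
    obtain ⟨b, hab, hb'⟩ := generic_triple' (fun e : {e : V × Fin 3 // e.1 ∈ S} => φ e.1) a ha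
    refine ⟨a, b, hab, fun u hu i hk => absurd (hadj u v i hk) (hno u hu), ?_⟩
    intro i e f he hf hef hl
    rcases hl with hl | hl
    · exact absurd hl (slot_generic hφ a ha' i e f he hf hef)
    · exact absurd hl (slot_generic hφ b hb' i e f he hf hef)
  · -- one neighbour
    rw [Finset.card_eq_one] at h1
    obtain ⟨u, hu⟩ := h1
    have hu1 : u ∈ S ∧ G.Adj u v := by
      have : u ∈ ({u ∈ S | G.Adj u v} : Finset V) := by rw [hu]; simp
      simpa using this
    have huniq : ∀ u' ∈ S, G.Adj u' v → u' = u := by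
      intro u' hu' hA
      have : u' ∈ ({u ∈ S | G.Adj u v} : Finset V) := by simp [hu', hA]
      rw [hu] at this
      simpa using this
    have hli : LinearIndependent K (fun i : Fin 3 => φ (u, i)) := by
      have h3 := good3 hφ (x := (u, 0)) (y := (u, 1)) (z := (u, 2)) hu1.1 hu1.1 hu1.1
        (by simp) (by simp) (by simp)
      convert h3 using 1
      ext i j
      fin_cases i <;> rfl
    obtain ⟨b, hab, hb'⟩ := generic_triple' (fun e : {e : V × Fin 3 // e.1 ∈ S} => φ e.1)
      (fun i => φ (u, i)) hli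
    obtain ⟨a, hGP, hs, hl⟩ := slot_nbr hφ hu1.1 (fun i j hij => htwo u v i j hu1.2 hij) b hab
    refine ⟨a, b, hGP, ?_, ?_⟩
    · intro u' hu' i hk
      obtain rfl := huniq u' hu' (hadj u' v i hk)
      exact Or.inl (hs i hk)
    · intro i e f he hf hef hl'
      rcases hl' with hl' | hl'
      · exact ⟨u, hl i e f he hf hef hl'⟩
      · exact absurd hl' (slot_generic hφ b hb' i e f he hf hef)
  · -- two neighbours
    rw [Finset.card_eq_two] at h2
    obtain ⟨u, w, huw, hNu⟩ := h2
    have hu1 : u ∈ S ∧ G.Adj u v := by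
      have : u ∈ ({u ∈ S | G.Adj u v} : Finset V) := by rw [hNu]; simp
      simpa using this
    have hw1 : w ∈ S ∧ G.Adj w v := by
      have : w ∈ ({u ∈ S | G.Adj u v} : Finset V) := by rw [hNu]; simp
      simpa using this
    have huniq : ∀ u' ∈ S, G.Adj u' v → u' = u ∨ u' = w := by
      intro u' hu' hA
      have : u' ∈ ({u ∈ S | G.Adj u v} : Finset V) := by simp [hu', hA]
      rw [hNu] at this
      simpa using this
    have hnadj : ¬ G.Adj u w := by
      intro hA
      exact hG {u, w, v} (SimpleGraph.is3Clique_triple_iff.2 ⟨hA, hu1.2, hw1.2⟩)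
    have hnoH : ∀ T : Finset (V × Fin 3), (∀ x ∈ T, x.1 = u ∨ x.1 = w) → ¬ HK Kp T := by
      rintro T hT ⟨p, q, i, hk, rfl⟩
      have hp := hT (p, i + 1) (by simp [crossSet])
      have hq := hT (q, i + 1) (by simp [crossSet])
      have hA := hadj p q i hk
      simp only at hp hq
      rcases hp with rfl | rfl <;> rcases hq with rfl | rfl
      · exact hA.ne rfl
      · exact hnadj hA
      · exact hnadj hA.symm
      · exact hA.ne rfl
    have hne : ∀ i j : Fin 3, ((u, i) : V × Fin 3) ≠ (w, j) := by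
      intro i j h
      exact huw (congrArg Prod.fst h)
    have hne12 : ∀ (x : V) (i : Fin 3), ((x, i + 1) : V × Fin 3) ≠ (x, i + 2) := by
      intro x i h
      have h' := congrArg Prod.snd h
      simp only at h'
      revert h'
      clear * -
      revert i
      decide
    have hgp : GP (fun i => φ (u, i)) (fun i => φ (w, i)) := by
      refine ⟨fun i j => ?_, fun i => ?_, fun i => ?_⟩
      · exact good4 hφ hu1.1 hu1.1 hw1.1 hw1.1 (hne12 u i) (hne _ _) (hne _ _) (hne _ _) (hne _ _)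
          (hne12 w j) (hnoH _ (by simp))
      · exact good4 hφ hu1.1 hu1.1 hu1.1 hw1.1 (by simp) (by simp) (hne _ _) (by simp) (hne _ _)
          (hne _ _) (hnoH _ (by simp))
      · exact good4 hφ hw1.1 hw1.1 hw1.1 hu1.1 (by simp) (by simp) (hne _ _).symm (by simp)
          (hne _ _).symm (hne _ _).symm (hnoH _ (by simp))
    obtain ⟨a, hGP, hs, hl⟩ := slot_nbr hφ hu1.1 (fun i j hij => htwo u v i j hu1.2 hij) _ hgp
    obtain ⟨b, hGP', hs', hl''⟩ := slot_nbr hφ hw1.1 (fun i j hij => htwo w v i j hw1.2 hij) a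
      (gp_symm hGP)
    refine ⟨a, b, gp_symm hGP', ?_, ?_⟩
    · intro u' hu' i hk
      rcases huniq u' hu' (hadj u' v i hk) with rfl | rfl
      · exact Or.inl (hs i hk)
      · exact Or.inr (hs' i hk)
    · intro i e f he hf hef hl'
      rcases hl' with hl' | hl'
      · exact ⟨u, hl i e f he hf hef hl'⟩
      · exact ⟨w, hl'' i e f he hf hef hl'⟩

end step

end Prism.TD
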