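import Pool.Agent.Lib.PrismTD.Defs

namespace Prism.TD

open Submodule

section s11aux
variable {K : Type*} [Field K]

private lemma s11_det (a b c d : Fin 4 → K) :
    det4 a b c d ≠ 0 ↔ LinearIndependent K ![a, b, c, d] := by
  unfold det4
  rw [← isUnit_iff_ne_zero, ← Matrix.isUnit_iff_isUnit_det, ← Matrix.linearIndependent_rows_iff_isUnit]
  rfl

private lemma s11_on4 {E : Type*} (ψ : E → Fin 4 → K) {p q r s : E} (h1 : p ≠ q) (h2 : p ≠ r)
    (h3 : p ≠ s) (h4 : q ≠ r) (h5 : q ≠ s) (h6 : r ≠ s) :
    LinearIndepOn K ψ ({p, q, r, s} : Set E) ↔ det4 (ψ p) (ψ q) (ψ r) (ψ s) ≠ 0 := by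
  rw [s11_det]
  have hinj : Function.Injective ![p, q, r, s] := by
    intro i j hij
    fin_cases i <;> fin_cases j <;> simp_all
  have hr : Set.range ![p, q, r, s] = ({p, q, r, s} : Set E) := by
    ext z
    simp only [Set.mem_range, Fin.exists_fin_succ, Set.mem_insert_iff, Set.mem_singleton_iff]
    simp [eq_comm]
  rw [← hr, linearIndepOn_range_iff hinj]
  have : ψ ∘ ![p, q, r, s] = ![ψ p, ψ q, ψ r, ψ s] := by
    funext i
    fin_cases i <;> rfl
  rw [this]

private lemma s11_on3 {E : Type*} (ψ : E → Fin 4 → K) {p q r : E} (h1 : p ≠ q) (h2 : p ≠ r)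
    (h4 : q ≠ r) :
    LinearIndepOn K ψ ({p, q, r} : Set E) ↔ LinearIndependent K ![ψ p, ψ q, ψ r] := by
  have hinj : Function.Injective ![p, q, r] := by
    intro i j hij
    fin_cases i <;> fin_cases j <;> simp_all
  have hr : Set.range ![p, q, r] = ({p, q, r} : Set E) := by
    ext z
    simp only [Set.mem_range, Fin.exists_fin_succ, Set.mem_insert_iff, Set.mem_singleton_iff]
    simp [eq_comm]
  rw [← hr, linearIndepOn_range_iff hinj]
  have : ψ ∘ ![p, q, r] = ![ψ p, ψ q, ψ r] := by
    funext i
    fin_cases i <;> rfl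
  rw [this]

private lemma s11_on2 {E : Type*} (ψ : E → Fin 4 → K) {p q : E} (h1 : p ≠ q) :
    LinearIndepOn K ψ ({p, q} : Set E) ↔ LinearIndependent K ![ψ p, ψ q] := by
  have hinj : Function.Injective ![p, q] := by
    intro i j hij
    fin_cases i <;> fin_cases j <;> simp_all
  have hr : Set.range ![p, q] = ({p, q} : Set E) := by
    ext z
    simp only [Set.mem_range, Fin.exists_fin_succ, Set.mem_insert_iff, Set.mem_singleton_iff]
    simp [eq_comm]
  rw [← hr, linearIndepOn_range_iff hinj]
  have : ψ ∘ ![p, q] = ![ψ p, ψ q] := by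
    funext i
    fin_cases i <;> rfl
  rw [this]

/-- same line, so dependent -/
private lemma s11_span (x y a b p q : Fin 4 → K) (h : span K {p, q} = span K {a, b})
    (hd : det4 x y a b = 0) : det4 x y p q = 0 := by
  by_contra hne
  have hli := (s11_det x y p q).1 hne
  have htop : span K (Set.range ![x, y, p, q]) = ⊤ := by
    apply hli.span_eq_top_of_card_eq_finrank
    simp
  have e1 : Set.range ![x, y, p, q] = {x, y} ∪ {p, q} := by
    ext z
    simp only [Set.mem_range, Fin.exists_fin_succ, Set.mem_union, Set.mem_insert_iff,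
      Set.mem_singleton_iff]
    simp [eq_comm, or_assoc]
  have e2 : Set.range ![x, y, a, b] = {x, y} ∪ {a, b} := by
    ext z
    simp only [Set.mem_range, Fin.exists_fin_succ, Set.mem_union, Set.mem_insert_iff,
      Set.mem_singleton_iff]
    simp [eq_comm, or_assoc]
  have htop2 : span K (Set.range ![x, y, a, b]) = ⊤ := by
    rw [e2, span_union, ← h, ← span_union, ← e1, htop]
  have hli2 : LinearIndependent K ![x, y, a, b] := by
    apply linearIndependent_of_top_le_span_of_card_eq_finrank htop2.ge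
    simp
  exact (s11_det x y a b).2 hli2 hd

end s11aux

section s11comb
variable {V : Type*} [DecidableEq V]

private lemma s11_extra {S : Finset V} (hS : S.Nonempty) (F : Finset (V × Fin 3))
    (hF : F.card ≤ 2) : ∃ g : V × Fin 3, g.1 ∈ S ∧ g ∉ F := by
  obtain ⟨u, hu⟩ := hS
  by_contra hn
  push Not at hn
  have hsub : (Finset.univ : Finset (Fin 3)).image (fun i => (u, i)) ⊆ F := by
    intro g hg
    obtain ⟨i, -, rfl⟩ := Finset.mem_image.1 hg
    exact hn _ hu
  have h1 := Finset.card_le_card hsub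
  rw [Finset.card_image_of_injective _ (fun i j hij => (Prod.mk.inj hij).2)] at h1
  simp at h1
  omega

private lemma s11_filter (u w v : V) (huw : u ≠ w) (j : Fin 3) :
    (crossSet u w j).filter (fun e => e.1 = v) =
      if u = v then {(v, j + 1), (v, j + 2)} else if w = v then {(v, j + 1), (v, j + 2)} else ∅ := by
  ext ⟨z, k⟩
  by_cases h1 : u = v
  · subst h1
    simp only [crossSet, Finset.mem_filter, Finset.mem_insert, Finset.mem_singleton, Prod.mk.injEq,
      if_true]
    constructor
    · rintro ⟨h | h | h | h, rfl⟩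
      · exact Or.inl h
      · exact Or.inr h
      · exact absurd h.1 huw
      · exact absurd h.1 huw
    · rintro (h | h)
      · exact ⟨Or.inl h, h.1⟩
      · exact ⟨Or.inr (Or.inl h), h.1⟩
  · by_cases h2 : w = v
    · subst h2
      simp only [crossSet, Finset.mem_filter, Finset.mem_insert, Finset.mem_singleton,
        Prod.mk.injEq, if_true, if_neg h1]
      constructor
      · rintro ⟨h | h | h | h, rfl⟩
        · exact absurd h.1.symm h1
        · exact absurd h.1.symm h1
        · exact Or.inl h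
        · exact Or.inr h
      · rintro (h | h)
        · exact ⟨Or.inr (Or.inr (Or.inl h)), h.1⟩
        · exact ⟨Or.inr (Or.inr (Or.inr h)), h.1⟩
    · simp only [crossSet, Finset.mem_filter, Finset.mem_insert, Finset.mem_singleton,
        Prod.mk.injEq, if_neg h1, if_neg h2, Finset.notMem_empty, iff_false]
      rintro ⟨h | h | h | h, rfl⟩
      · exact h1 h.1.symm
      · exact h1 h.1.symm
      · exact h2 h.1.symm
      · exact h2 h.1.symm

private lemma s11_pair (v : V) (j : Fin 3) : ({(v, j + 1), (v, j + 2)} : Finset (V × Fin 3)).card = 2 := by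
  rw [Finset.card_pair]
  intro h
  have := (Prod.mk.inj h).2
  revert this
  fin_cases j <;> decide

private lemma s11_card (u w v : V) (huw : u ≠ w) (j : Fin 3) :
    ((crossSet u w j).filter (fun e => e.1 = v)).card = 0 ∨
      ((crossSet u w j).filter (fun e => e.1 = v)).card = 2 := by
  rw [s11_filter u w v huw j]
  split_ifs
  · exact Or.inr (s11_pair v j)
  · exact Or.inr (s11_pair v j)
  · exact Or.inl rfl

/-- two letters are the letters different from a third one -/
private lemma s11_letters (p q : Fin 3) (h : p ≠ q) :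
    ∃ i : Fin 3, (p = i + 1 ∧ q = i + 2) ∨ (p = i + 2 ∧ q = i + 1) := by
  revert p q
  decide

private lemma s11_idx : ∀ i j : Fin 3, (i + 1 = j + 1 ∨ i + 1 = j + 2) →
    (i + 2 = j + 1 ∨ i + 2 = j + 2) → i = j := by
  decide

end s11comb

section s11main
variable {V : Type*} [DecidableEq V] {K : Type*} [Field K]

private lemma s11_new {v : V} (N : Finset (V × Fin 3)) (hN : ∀ e ∈ N, e.1 = v) :
    N ⊆ {(v, 0), (v, 1), (v, 2)} := by
  rintro ⟨z, k⟩ hz
  have h1 : z = v := hN _ hz
  subst h1
  fin_cases k <;> simp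

private lemma s11_new3 {v : V} (N : Finset (V × Fin 3)) (hN : ∀ e ∈ N, e.1 = v) :
    N.card ≤ 3 := by
  refine (Finset.card_le_card (s11_new N hN)).trans Finset.card_le_three

private lemma s11_new3' {v : V} (N : Finset (V × Fin 3)) (hN : ∀ e ∈ N, e.1 = v)
    (h : N.card = 3) : N = {(v, 0), (v, 1), (v, 2)} :=
  Finset.eq_of_subset_of_card_le (s11_new N hN) (by rw [h]; exact Finset.card_le_three)

omit [DecidableEq V] in
private lemma s11_new1 {v : V} (N : Finset (V × Fin 3)) (hN : ∀ e ∈ N, e.1 = v)
    (h : N.card = 1) : ∃ i : Fin 3, N = {(v, i)} := by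
  obtain ⟨⟨z, k⟩, rfl⟩ := Finset.card_eq_one.1 h
  have h1 : z = v := hN _ (Finset.mem_singleton_self _)
  subst h1
  exact ⟨k, rfl⟩

private lemma s11_new2 {v : V} (N : Finset (V × Fin 3)) (hN : ∀ e ∈ N, e.1 = v)
    (h : N.card = 2) : ∃ i : Fin 3, N = {(v, i + 1), (v, i + 2)} := by
  obtain ⟨⟨z, k⟩, ⟨z', k'⟩, hne, rfl⟩ := Finset.card_eq_two.1 h
  have h1 : z = v := hN _ (Finset.mem_insert_self _ _)
  have h2 : z' = v := hN _ (Finset.mem_insert_of_mem (Finset.mem_singleton_self _))
  subst h1
  subst h2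
  have hkk : k ≠ k' := fun h => hne (by rw [h])
  obtain ⟨i, ⟨rfl, rfl⟩ | ⟨rfl, rfl⟩⟩ := s11_letters k k' hkk
  · exact ⟨i, rfl⟩
  · exact ⟨i, Finset.pair_comm _ _⟩

/-- S11: one more vertex -/
theorem step (Kp : V → V → Fin 3 → Prop)
    (hirr : ∀ u i, ¬ Kp u u i) (hsymm : ∀ u v i, Kp u v i → Kp v u i)
    (S : Finset V) (hS : S.Nonempty) (v : V) (hv : v ∉ S)
    (φ : V × Fin 3 → Fin 4 → K) (hφ : Good Kp S φ) (a b x : Fin 3 → Fin 4 → K)
    (hab : ∀ u ∈ S, ∀ i, Kp u v i →
        span K {φ (u, i + 1), φ (u, i + 2)} = span K {a (i + 1), a (i + 2)} ∨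
        span K {φ (u, i + 1), φ (u, i + 2)} = span K {b (i + 1), b (i + 2)})
    (hline : ∀ i e f, e.1 ∈ S → f.1 ∈ S → e ≠ f →
        (InLine (a (i + 1)) (a (i + 2)) (φ e) (φ f) ∨ InLine (b (i + 1)) (b (i + 2)) (φ e) (φ f)) →
        ∃ u, Kp u v i ∧ ({e, f} : Finset (V × Fin 3)) = {(u, i + 1), (u, i + 2)})
    (hxa : ∀ i, det4 (x (i + 1)) (x (i + 2)) (a (i + 1)) (a (i + 2)) = 0)
    (hxb : ∀ i, det4 (x (i + 1)) (x (i + 2)) (b (i + 1)) (b (i + 2)) = 0)
    (h1 : ∀ i e f g, e.1 ∈ S → f.1 ∈ S → g.1 ∈ S → LinearIndependent K ![φ e, φ f, φ g] →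
      det4 (x i) (φ e) (φ f) (φ g) ≠ 0)
    (h2 : ∀ i e f, e.1 ∈ S → f.1 ∈ S → LinearIndependent K ![φ e, φ f] →
      ¬ InLine (a (i + 1)) (a (i + 2)) (φ e) (φ f) →
      ¬ InLine (b (i + 1)) (b (i + 2)) (φ e) (φ f) →
      det4 (x (i + 1)) (x (i + 2)) (φ e) (φ f) ≠ 0)
    (h3 : ∀ e, e.1 ∈ S → φ e ≠ 0 → det4 (x 0) (x 1) (x 2) (φ e) ≠ 0) :
    Good Kp (insert v S) (fun e => if e.1 = v then x e.2 else φ e) := by
  classical
  obtain ⟨hφ4, hφ3'⟩ := hφ
  have hne : ∀ e : V × Fin 3, e.1 ∈ S → e.1 ≠ v := fun e he h => hv (h ▸ he)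
  have hneS : ∀ (i : Fin 3) (e : V × Fin 3), e.1 ∈ S → (v, i) ≠ e := fun i e he h =>
    hne e he (by rw [← h])
  set ψ : V × Fin 3 → Fin 4 → K := fun e => if e.1 = v then x e.2 else φ e with hψ
  have ψv : ∀ i, ψ (v, i) = x i := fun i => by simp [hψ]
  have ψS : ∀ e, e.1 ∈ S → ψ e = φ e := fun e he => if_neg (hne e he)
  have φ3 : ∀ e f g : V × Fin 3, e.1 ∈ S → f.1 ∈ S → g.1 ∈ S → e ≠ f → e ≠ g → f ≠ g →
      LinearIndependent K ![φ e, φ f, φ g] := by
    intro e f g he hf hg h1 h2 h3
    have := hφ3' {e, f, g} (by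
      intro z hz
      simp only [Finset.mem_insert, Finset.mem_singleton] at hz
      rcases hz with rfl | rfl | rfl <;> assumption)
      (Finset.card_eq_three.2 ⟨e, f, g, h1, h2, h3, rfl⟩)
    rw [Finset.coe_insert, Finset.coe_insert, Finset.coe_singleton, s11_on3 φ h1 h2 h3] at this
    exact this
  have φ2 : ∀ e f : V × Fin 3, e.1 ∈ S → f.1 ∈ S → e ≠ f → LinearIndependent K ![φ e, φ f] := by
    intro e f he hf h
    obtain ⟨g, hg, hgn⟩ := s11_extra hS {e, f} Finset.card_le_two
    rw [Finset.mem_insert, Finset.mem_singleton, not_or] at hgn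
    have h3 := φ3 e f g he hf hg h (Ne.symm hgn.1) (Ne.symm hgn.2)
    rw [← s11_on3 φ h (Ne.symm hgn.1) (Ne.symm hgn.2)] at h3
    rw [← s11_on2 φ h]
    refine h3.mono ?_
    intro z hz
    simp only [Set.mem_insert_iff, Set.mem_singleton_iff] at hz ⊢
    tauto
  have φ1 : ∀ e : V × Fin 3, e.1 ∈ S → φ e ≠ 0 := by
    intro e he
    obtain ⟨g, hg, hgn⟩ := s11_extra hS {e} (by simp)
    rw [Finset.mem_singleton] at hgn
    exact (φ2 e g he hg (Ne.symm hgn)).ne_zero 0
  have c1 : ∀ (i : Fin 3) (e f g : V × Fin 3), e.1 ∈ S → f.1 ∈ S → g.1 ∈ S → e ≠ f → e ≠ g →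
      f ≠ g → LinearIndepOn K ψ ({(v, i), e, f, g} : Set (V × Fin 3)) := by
    intro i e f g he hf hg k1 k2 k3
    rw [s11_on4 ψ (hneS i e he) (hneS i f hf) (hneS i g hg) k1 k2 k3, ψv, ψS e he, ψS f hf, ψS g hg]
    exact h1 i e f g he hf hg (φ3 e f g he hf hg k1 k2 k3)
  have vij : ∀ i j : Fin 3, i ≠ j → ((v, i) : V × Fin 3) ≠ (v, j) := fun i j hij h =>
    hij (Prod.mk.inj h).2
  have c3 : ∀ e : V × Fin 3, e.1 ∈ S →
      LinearIndepOn K ψ ({(v, 0), (v, 1), (v, 2), e} : Set (V × Fin 3)) := by
    intro e he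
    rw [s11_on4 ψ (vij 0 1 (by decide)) (vij 0 2 (by decide)) (hneS 0 e he) (vij 1 2 (by decide))
      (hneS 1 e he) (hneS 2 e he), ψv, ψv, ψv, ψS e he]
    exact h3 e he (φ1 e he)
  have i12 : ∀ i : Fin 3, i + 1 ≠ i + 2 := by decide
  have c2 : ∀ (i : Fin 3) (e f : V × Fin 3), e.1 ∈ S → f.1 ∈ S → e ≠ f →
      (LinearIndepOn K ψ ({(v, i + 1), (v, i + 2), e, f} : Set (V × Fin 3)) ↔
        ¬ ∃ u, Kp u v i ∧ ({e, f} : Finset (V × Fin 3)) = {(u, i + 1), (u, i + 2)}) := by
    intro i e f he hf hef
    constructor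
    · rintro hli ⟨u, hu, heq⟩
      have hmem : ∀ z : V × Fin 3, z ∈ ({(u, i + 1), (u, i + 2)} : Finset (V × Fin 3)) → z.1 ∈ S := by
        intro z hz
        rw [← heq, Finset.mem_insert, Finset.mem_singleton] at hz
        rcases hz with rfl | rfl <;> assumption
      have huS1 : ((u, i + 1) : V × Fin 3).1 ∈ S := hmem _ (by simp)
      have huS2 : ((u, i + 2) : V × Fin 3).1 ∈ S := hmem _ (by simp)
      have hset : ({(v, i + 1), (v, i + 2), e, f} : Set (V × Fin 3)) =
          {(v, i + 1), (v, i + 2), (u, i + 1), (u, i + 2)} := by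
        ext z
        have := Finset.ext_iff.1 heq z
        simp only [Finset.mem_insert, Finset.mem_singleton] at this
        simp only [Set.mem_insert_iff, Set.mem_singleton_iff]
        rw [this]
      have huu : ((u, i + 1) : V × Fin 3) ≠ (u, i + 2) := fun h => i12 i (Prod.mk.inj h).2
      rw [hset, s11_on4 ψ (vij _ _ (i12 i)) (hneS _ _ huS1) (hneS _ _ huS2) (hneS _ _ huS1)
        (hneS _ _ huS2) huu, ψv, ψv, ψS _ huS1, ψS _ huS2] at hli
      rcases hab u huS1 i hu with h | h
      · exact hli (s11_span _ _ _ _ _ _ h (hxa i))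
      · exact hli (s11_span _ _ _ _ _ _ h (hxb i))
    · intro hn
      rw [s11_on4 ψ (vij _ _ (i12 i)) (hneS _ _ he) (hneS _ _ hf) (hneS _ _ he)
        (hneS _ _ hf) hef, ψv, ψv, ψS _ he, ψS _ hf]
      refine h2 i e f he hf (φ2 e f he hf hef) ?_ ?_
      · intro h
        exact hn (hline i e f he hf hef (Or.inl h))
      · intro h
        exact hn (hline i e f he hf hef (Or.inr h))
  -- the two parts of a set
  have hsplit : ∀ T : Finset (V × Fin 3),
      T = T.filter (fun e => e.1 = v) ∪ T.filter (fun e => ¬ e.1 = v) := fun T =>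
    (Finset.filter_union_filter_not_eq _ T).symm
  have hcard : ∀ T : Finset (V × Fin 3),
      (T.filter (fun e => e.1 = v)).card + (T.filter (fun e => ¬ e.1 = v)).card = T.card := fun T =>
    Finset.card_filter_add_card_filter_not _
  have hNv : ∀ T : Finset (V × Fin 3), ∀ e ∈ T.filter (fun e => e.1 = v), e.1 = v := fun T e he =>
    (Finset.mem_filter.1 he).2
  have hOS : ∀ T : Finset (V × Fin 3), (∀ z ∈ T, z.1 ∈ insert v S) →
      ∀ e ∈ T.filter (fun e => ¬ e.1 = v), e.1 ∈ S := by
    intro T hT e he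
    rw [Finset.mem_filter] at he
    exact (Finset.mem_insert.1 (hT e he.1)).resolve_left he.2
  have hHK : ∀ T : Finset (V × Fin 3), HK Kp T →
      (T.filter (fun e => e.1 = v)).card = 0 ∨ (T.filter (fun e => e.1 = v)).card = 2 := by
    rintro T ⟨u, w, j, hK, rfl⟩
    refine s11_card u w v ?_ j
    rintro rfl
    exact hirr _ _ hK
  refine ⟨?_, ?_⟩
  · intro T hT hc
    have e1 := hsplit T
    have e2 := hcard T
    rw [hc] at e2
    have e3 := s11_new3 _ (hNv T)
    have e4 := hOS T hT
    have e5 := hHK T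
    have e6 := hNv T
    generalize hN : T.filter (fun e => e.1 = v) = N at e1 e2 e3 e5 e6
    generalize hO : T.filter (fun e => ¬ e.1 = v) = O at e1 e2 e4
    have hcases : N.card = 0 ∨ N.card = 1 ∨ N.card = 2 ∨ N.card = 3 := by omega
    rcases hcases with h | h | h | h
    · rw [Finset.card_eq_zero] at h
      rw [h, Finset.empty_union] at e1
      have hTS : ∀ z ∈ T, z.1 ∈ S := fun z hz => e4 z (by rw [← e1]; exact hz)
      rw [← hφ4 T hTS hc]
      exact linearIndepOn_congr (fun z hz => ψS z (hTS z hz))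
    · obtain ⟨i, hi⟩ := s11_new1 N e6 h
      obtain ⟨e, f, g, k1, k2, k3, hefg⟩ := Finset.card_eq_three.1 (show O.card = 3 by omega)
      have he : e.1 ∈ S := e4 e (by rw [hefg]; simp)
      have hf : f.1 ∈ S := e4 f (by rw [hefg]; simp)
      have hg : g.1 ∈ S := e4 g (by rw [hefg]; simp)
      have hset : (T : Set (V × Fin 3)) = {(v, i), e, f, g} := by
        rw [e1, hi, hefg]
        ext z
        simp only [Finset.coe_union, Finset.coe_insert, Finset.coe_singleton, Set.mem_union,
          Set.mem_insert_iff, Set.mem_singleton_iff]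
      rw [hset]
      refine iff_of_true (c1 i e f g he hf hg k1 k2 k3) ?_
      intro hk
      rcases e5 hk with h0 | h0 <;> omega
    · obtain ⟨i, hi⟩ := s11_new2 N e6 h
      obtain ⟨e, f, k1, hef⟩ := Finset.card_eq_two.1 (show O.card = 2 by omega)
      have he : e.1 ∈ S := e4 e (by rw [hef]; simp)
      have hf : f.1 ∈ S := e4 f (by rw [hef]; simp)
      have hset : (T : Set (V × Fin 3)) = {(v, i + 1), (v, i + 2), e, f} := by
        rw [e1, hi, hef]
        ext z
        simp only [Finset.coe_union, Finset.coe_insert, Finset.coe_singleton, Set.mem_union,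
          Set.mem_insert_iff, Set.mem_singleton_iff]
        tauto
      rw [hset, c2 i e f he hf k1, not_iff_not]
      constructor
      · rintro ⟨u, hu, huq⟩
        refine ⟨u, v, i, hu, ?_⟩
        rw [e1, hi, hef, huq]
        ext z
        simp only [crossSet, Finset.mem_union, Finset.mem_insert, Finset.mem_singleton]
        tauto
      · rintro ⟨u, w, j, hK, hTq⟩
        have huw : u ≠ w := by
          rintro rfl
          exact hirr _ _ hK
        have hfil := s11_filter u w v huw j
        rw [← hTq, hN, hi] at hfil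
        have hcard2 : ({(v, i + 1), (v, i + 2)} : Finset (V × Fin 3)).card = 2 := s11_pair v i
        have key : ∀ (j : Fin 3), ({(v, i + 1), (v, i + 2)} : Finset (V × Fin 3)) =
            {(v, j + 1), (v, j + 2)} → i = j := by
          intro j hj
          have m1 : ((v, i + 1) : V × Fin 3) ∈ ({(v, j + 1), (v, j + 2)} : Finset (V × Fin 3)) := by
            rw [← hj]; simp
          have m2 : ((v, i + 2) : V × Fin 3) ∈ ({(v, j + 1), (v, j + 2)} : Finset (V × Fin 3)) := by
            rw [← hj]; simp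
          simp only [Finset.mem_insert, Finset.mem_singleton, Prod.mk.injEq, true_and] at m1 m2
          exact s11_idx i j m1 m2
        have hOeq : O = T.filter (fun e => ¬ e.1 = v) := hO.symm
        by_cases hu : u = v
        · subst hu
          rw [if_pos rfl] at hfil
          have hij := key j hfil
          subst hij
          refine ⟨w, hsymm _ _ _ hK, ?_⟩
          rw [← hef, hOeq, hTq]
          ext z
          simp only [crossSet, Finset.mem_filter, Finset.mem_insert, Finset.mem_singleton]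
          constructor
          · rintro ⟨h | h | h | h, h'⟩
            · exact absurd (by rw [h]) h'
            · exact absurd (by rw [h]) h'
            · exact Or.inl h
            · exact Or.inr h
          · rintro (h | h)
            · exact ⟨Or.inr (Or.inr (Or.inl h)), by rw [h]; exact Ne.symm huw⟩
            · exact ⟨Or.inr (Or.inr (Or.inr h)), by rw [h]; exact Ne.symm huw⟩
        · rw [if_neg hu] at hfil
          by_cases hw : w = v
          · subst hw
            rw [if_pos rfl] at hfil
            have hij := key j hfil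
            subst hij
            refine ⟨u, hK, ?_⟩
            rw [← hef, hOeq, hTq]
            ext z
            simp only [crossSet, Finset.mem_filter, Finset.mem_insert, Finset.mem_singleton]
            constructor
            · rintro ⟨h | h | h | h, h'⟩
              · exact Or.inl h
              · exact Or.inr h
              · exact absurd (by rw [h]) h'
              · exact absurd (by rw [h]) h'
            · rintro (h | h)
              · exact ⟨Or.inl h, by rw [h]; exact huw⟩
              · exact ⟨Or.inr (Or.inl h), by rw [h]; exact huw⟩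
          · rw [if_neg hw] at hfil
            rw [hfil] at hcard2
            simp at hcard2
    · have hi := s11_new3' N e6 h
      obtain ⟨e, hee⟩ := Finset.card_eq_one.1 (show O.card = 1 by omega)
      have he : e.1 ∈ S := e4 e (by rw [hee]; simp)
      have hset : (T : Set (V × Fin 3)) = {(v, 0), (v, 1), (v, 2), e} := by
        rw [e1, hi, hee]
        ext z
        simp only [Finset.coe_union, Finset.coe_insert, Finset.coe_singleton, Set.mem_union,
          Set.mem_insert_iff, Set.mem_singleton_iff]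
        tauto
      rw [hset]
      refine iff_of_true (c3 e he) ?_
      intro hk
      rcases e5 hk with h0 | h0 <;> omega
  · intro T hT hc
    have e1 := hsplit T
    have e2 := hcard T
    rw [hc] at e2
    have e4 := hOS T hT
    have e6 := hNv T
    generalize hN : T.filter (fun e => e.1 = v) = N at e1 e2 e6
    generalize hO : T.filter (fun e => ¬ e.1 = v) = O at e1 e2 e4
    have hcases : N.card = 0 ∨ N.card = 1 ∨ 2 ≤ N.card := by omega
    rcases hcases with h | h | h
    · rw [Finset.card_eq_zero] at h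
      rw [h, Finset.empty_union] at e1
      have hTS : ∀ z ∈ T, z.1 ∈ S := fun z hz => e4 z (by rw [← e1]; exact hz)
      exact (linearIndepOn_congr (fun z hz => ψS z (hTS z hz))).2 (hφ3' T hTS hc)
    · obtain ⟨i, hi⟩ := s11_new1 N e6 h
      obtain ⟨e, f, k1, hef⟩ := Finset.card_eq_two.1 (show O.card = 2 by omega)
      have he : e.1 ∈ S := e4 e (by rw [hef]; simp)
      have hf : f.1 ∈ S := e4 f (by rw [hef]; simp)
      obtain ⟨g, hg, hgn⟩ := s11_extra hS {e, f} Finset.card_le_two
      rw [Finset.mem_insert, Finset.mem_singleton, not_or] at hgn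
      refine (c1 i e f g he hf hg k1 (Ne.symm hgn.1) (Ne.symm hgn.2)).mono ?_
      rw [e1, hi, hef]
      intro z
      simp only [Finset.coe_union, Finset.coe_insert, Finset.coe_singleton, Set.mem_union,
        Set.mem_insert_iff, Set.mem_singleton_iff]
      tauto
    · have hO1 : O.card ≤ 1 := by omega
      have hsub := s11_new N e6
      obtain ⟨u, hu⟩ := hS
      have : ∃ e : V × Fin 3, e.1 ∈ S ∧ O ⊆ {e} := by
        rcases Finset.eq_empty_or_nonempty O with h0 | ⟨e, he⟩
        · exact ⟨(u, 0), hu, by rw [h0]; exact Finset.empty_subset _⟩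
        · refine ⟨e, e4 e he, ?_⟩
          intro z hz
          rw [Finset.mem_singleton]
          exact Finset.card_le_one.1 hO1 z hz e he
      obtain ⟨e, he, hOe⟩ := this
      refine (c3 e he).mono ?_
      rw [e1]
      intro z hz
      rw [Finset.coe_union, Set.mem_union, Finset.mem_coe, Finset.mem_coe] at hz
      simp only [Set.mem_insert_iff, Set.mem_singleton_iff]
      rcases hz with hz | hz
      · have := hsub hz
        simp only [Finset.mem_insert, Finset.mem_singleton] at this
        tauto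
      · have := hOe hz
        rw [Finset.mem_singleton] at this
        tauto

end s11main

end Prism.TD
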