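import Pool.Agent.Lib.PrismTD.S7
import Pool.Agent.Lib.PrismTD.S10
import Pool.Agent.Lib.PrismTD.S11

/-!
# MP_343ccd_co, two-degenerate graphs: the induction
-/

namespace Prism.TD

open Submodule

variable {V : Type*} [DecidableEq V] {K : Type*} [Field K]

private theorem base (Kp : V → V → Fin 3 → Prop) (v : V) :
    ∃ φ : V × Fin 3 → Fin 4 → K, Good Kp {v} φ := by
  have hli : ∀ T : Finset (V × Fin 3), (∀ x ∈ T, x.1 ∈ ({v} : Finset V)) →
      LinearIndepOn K (fun e : V × Fin 3 => (Pi.single (Fin.castSucc e.2) 1 : Fin 4 → K))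
        (T : Set (V × Fin 3)) := by
    intro T hT
    have h1 := (Pi.basisFun K (Fin 4)).linearIndependent
    have hinj : Function.Injective (fun x : (T : Set (V × Fin 3)) => Fin.castSucc x.1.2) := by
      intro x y hxy
      have e1 := Finset.mem_singleton.1 (hT x.1 x.2)
      have e2 := Finset.mem_singleton.1 (hT y.1 y.2)
      have e3 : x.1.2 = y.1.2 := Fin.castSucc_injective _ hxy
      exact Subtype.ext (Prod.ext (e1.trans e2.symm) e3)
    have h2 := h1.comp _ hinj
    have h3 : (fun x : (T : Set (V × Fin 3)) =>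
        (Pi.single (Fin.castSucc x.1.2) 1 : Fin 4 → K)) =
        (Pi.basisFun K (Fin 4)) ∘ (fun x : (T : Set (V × Fin 3)) => Fin.castSucc x.1.2) := by
      funext x
      simp [Pi.basisFun_apply]
    change LinearIndependent K (fun x : (T : Set (V × Fin 3)) =>
        (Pi.single (Fin.castSucc x.1.2) 1 : Fin 4 → K))
    rw [h3]
    exact h2
  refine ⟨_, fun T hT h4 => ?_, fun T hT _ => hli T hT⟩
  exfalso
  have hsub : T ⊆ ({v} : Finset V) ×ˢ (Finset.univ : Finset (Fin 3)) := by
    intro x hx
    exact Finset.mem_product.2 ⟨hT x hx, Finset.mem_univ _⟩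
  have := Finset.card_le_card hsub
  rw [Finset.card_product, Finset.card_singleton, Finset.card_univ, Fintype.card_fin] at this
  omega

theorem exists_good [Infinite K] (G : SimpleGraph V) [DecidableRel G.Adj]
    (hG : G.CliqueFree 3)
    (hdeg : ∀ S : Finset V, S.Nonempty → ∃ v ∈ S, {u ∈ S | G.Adj u v}.card ≤ 2)
    (Kp : V → V → Fin 3 → Prop)
    (hadj : ∀ u v i, Kp u v i → G.Adj u v) (hsymm : ∀ u v i, Kp u v i → Kp v u i)
    (htwo : ∀ u v i j, G.Adj u v → i ≠ j → Kp u v i ∨ Kp u v j) (S : Finset V)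
    (hS : S.Nonempty) : ∃ φ : V × Fin 3 → Fin 4 → K, Good Kp S φ := by
  induction hn : S.card generalizing S with
  | zero =>
    rw [Finset.card_eq_zero] at hn
    exact absurd hn hS.ne_empty
  | succ n ih =>
    obtain ⟨v, hv, hd⟩ := hdeg S hS
    by_cases hS' : (S.erase v).Nonempty
    · obtain ⟨φ, hφ⟩ := ih (S.erase v) hS' (by rw [Finset.card_erase_of_mem hv]; omega)
      have hN : {u ∈ S.erase v | G.Adj u v}.card ≤ 2 :=
        (Finset.card_le_card (Finset.filter_subset_filter _ (Finset.erase_subset v S))).trans hd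
      obtain ⟨a, b, hgp, hab, hline⟩ := slots G hG Kp hadj hsymm htwo (S.erase v) v
        (Finset.notMem_erase v S) hN φ hφ
      have hfin : Finite {e : V × Fin 3 // e.1 ∈ S.erase v} := by
        have h0 : ({e : V × Fin 3 | e.1 ∈ S.erase v} : Set (V × Fin 3)).Finite := by
          refine Set.Finite.subset (Finset.finite_toSet ((S.erase v) ×ˢ
            (Finset.univ : Finset (Fin 3)))) fun e he => ?_
          exact Finset.mem_coe.2 (Finset.mem_product.2 ⟨he, Finset.mem_univ _⟩)
        exact h0.to_subtype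
      obtain ⟨x, hxa, hxb, h1, h2, h3⟩ := add_triple a b hgp
        (E := {e : V × Fin 3 // e.1 ∈ S.erase v}) (fun e => φ e.1)
      refine ⟨fun e => if e.1 = v then x e.2 else φ e, ?_⟩
      have := step Kp (fun u i h => (hadj u u i h).ne rfl) hsymm (S.erase v) hS' v
        (Finset.notMem_erase v S) φ hφ a b x hab hline hxa hxb
        (fun i e f g he hf hg => h1 i ⟨e, he⟩ ⟨f, hf⟩ ⟨g, hg⟩)
        (fun i e f he hf => h2 i ⟨e, he⟩ ⟨f, hf⟩) (fun e he => h3 ⟨e, he⟩)
      rwa [Finset.insert_erase hv] at this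
    · rw [Finset.not_nonempty_iff_eq_empty] at hS'
      have hSv : S = {v} := by
        rw [← Finset.insert_erase hv, hS']
        rfl
      rw [hSv]
      exact base Kp v

end Prism.TD
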