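import Pool.Agent.Lib.PrismTD.Defs

/-!
# MP_343ccd_co, two-degenerate graphs: from the linear representation to the matroid
-/

namespace Prism.TD

open MvPolynomial

/-- the linear form with the coefficients `v` -/
private noncomputable def lf {K : Type} [Field K] (v : Fin 4 → K) : MvPolynomial (Fin 4) K :=
  ∑ j, C (v j) * X j

private theorem s13_alg {K : Type} [Field K] (v : Fin 4 → Fin 4 → K)
    (h : LinearIndependent K v) : AlgebraicIndependent K (fun i => lf (v i)) := by
  have hdet : IsUnit (Matrix.of v) := Matrix.linearIndependent_rows_iff_isUnit.1 h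
  obtain ⟨u, hu⟩ := hdet
  set B : Matrix (Fin 4) (Fin 4) K := ↑u⁻¹ with hB
  have hAB : Matrix.of v * B = 1 := by rw [← hu, hB]; exact u.mul_inv
  rw [AlgebraicIndependent]
  let ψ : MvPolynomial (Fin 4) K →ₐ[K] MvPolynomial (Fin 4) K :=
    aeval (fun j => ∑ k, C (B j k) * X k)
  have hcomp : ψ.comp (aeval fun i => lf (v i)) = AlgHom.id K _ := by
    apply MvPolynomial.algHom_ext
    intro i
    rw [AlgHom.comp_apply, aeval_X]
    unfold lf
    rw [map_sum]
    simp only [map_mul, algHom_C, ψ, aeval_X, AlgHom.id_apply, algebraMap_eq, Finset.mul_sum]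
    rw [Finset.sum_comm]
    have h1 : ∀ k, ∑ j, C (v i j) * (C (B j k) * X k) =
        (C ((Matrix.of v * B) i k) * X k : MvPolynomial (Fin 4) K) := by
      intro k
      rw [Matrix.mul_apply, map_sum, Finset.sum_mul]
      refine Finset.sum_congr rfl fun j _ => ?_
      rw [Matrix.of_apply, C_mul, mul_assoc]
    simp only [h1, hAB, Matrix.one_apply]
    rw [Finset.sum_eq_single i]
    · simp
    · intro k _ hk
      rw [if_neg (Ne.symm hk)]
      simp
    · intro hi
      exact absurd (Finset.mem_univ i) hi
  intro p q hpq
  have h2 := congrArg ψ hpq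
  have h3 : ∀ p, ψ ((aeval fun i => lf (v i)) p) = p := fun p => by
    rw [← AlgHom.comp_apply, hcomp, AlgHom.id_apply]
  rwa [h3, h3] at h2

private theorem s13_lin {K : Type} [Field K] {ι : Type*} (v : ι → Fin 4 → K)
    (h : AlgebraicIndependent K (fun i => lf (v i))) : LinearIndependent K v := by
  have h1 := h.linearIndependent
  let L : (Fin 4 → K) →ₗ[K] MvPolynomial (Fin 4) K :=
    { toFun := lf
      map_add' := fun x y => by
        unfold lf
        simp only [Pi.add_apply, C_add, add_mul, Finset.sum_add_distrib]
      map_smul' := fun c x => by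
        unfold lf
        simp only [Pi.smul_apply, smul_eq_mul, C_mul, Finset.smul_sum, RingHom.id_apply,
          MvPolynomial.smul_eq_C_mul, mul_assoc] }
  exact LinearIndependent.of_comp L h1

/-- S13: from the linear representation to the matroid -/
theorem final {K : Type} [Field K] {E : Type*} [Finite E] (H : Finset E → Prop)
    (hH : ∀ T : Finset E, T.card ≤ 3 → ∃ S : Finset E, T ⊆ S ∧ S.card = 4 ∧ ¬ H S)
    (φ : E → Fin 4 → K)
    (hφ : ∀ S : Finset E, S.card = 4 → (LinearIndepOn K φ (S : Set E) ↔ ¬ H S)) :
    ∃ M : Matroid E, IsPaving4 H M ∧ AlgebraicOver M K ∧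
      ∀ I : Set E, M.Indep I ↔ LinearIndepOn K φ I := by
  classical
  obtain ⟨M, hM, hA⟩ := matroid_of_rep H hH (fun e => lf (φ e)) (by
    intro S hS
    rw [← hφ S hS]
    have e : Fin 4 ≃ S := (finCongr hS.symm).trans S.equivFin.symm
    constructor
    · intro h
      exact s13_lin (fun x : S => φ x) h
    · intro h
      have h1 : LinearIndependent K (fun i => φ (e i)) := by
        have := h.comp e e.injective
        exact this
      have h2 := s13_alg _ h1
      exact (algebraicIndependent_equiv e).1 h2)
  refine ⟨M, hM, hA, fun I => ?_⟩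
  constructor
  · intro hI
    obtain ⟨B, hB, hIB⟩ := hI.exists_isBase_superset
    obtain ⟨S, rfl, hS4, hSH⟩ := (hM.2 B).1 hB
    exact ((hφ S hS4).2 hSH).mono hIB
  · intro hI
    obtain ⟨S0, -, hS04, hS0H⟩ := hH ∅ (by simp)
    have hS0 := (hφ S0 hS04).2 hS0H
    obtain ⟨b, hb1, hIb, hb2, hb3⟩ := exists_linearIndepOn_extension hI (Set.subset_univ I)
    have hcard : ∀ T : Finset E, LinearIndepOn K φ (T : Set E) → T.card ≤ 4 := by
      intro T hT
      have := LinearIndependent.fintype_card_le_finrank hT
      simpa using this
    have hbf : b.Finite := b.toFinite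
    have hb4 : hbf.toFinset.card = 4 := by
      apply le_antisymm
      · apply hcard
        rwa [hbf.coe_toFinset]
      · -- the span of the images of `b` is everything
        have h1 : Submodule.span K (φ '' b) = ⊤ := by
          rw [eq_top_iff]
          have h2 : Submodule.span K (φ '' (S0 : Set E)) = ⊤ := by
            have h3 : LinearIndependent K (fun x : S0 => φ x) := hS0
            have h4 := h3.span_eq_top_of_card_eq_finrank' (by simp [hS04])
            rw [← h4]
            congr 1
            ext y
            simp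
          rw [← h2]
          refine Submodule.span_le.2 ?_
          rintro _ ⟨x, -, rfl⟩
          exact hb2 ⟨x, Set.mem_univ x, rfl⟩
        have h6 : ((hbf.toFinset.image φ : Finset (Fin 4 → K)) : Set (Fin 4 → K)) = φ '' b := by
          rw [Finset.coe_image, hbf.coe_toFinset]
        have h5 := finrank_span_finset_le_card (R := K) (hbf.toFinset.image φ)
        rw [h6, Set.finrank, h1, finrank_top, Module.finrank_fin_fun] at h5
        exact h5.trans Finset.card_image_le
    have hbB : M.IsBase b := by
      rw [hM.2]
      refine ⟨hbf.toFinset, hbf.coe_toFinset.symm, hb4, ?_⟩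
      rw [← hφ _ hb4, hbf.coe_toFinset]
      exact hb3
    exact hbB.indep.subset hIb

end Prism.TD
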