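import Pool.Agent.Lib.PrismTD.S1

/-!
# MP_343ccd_co, two-degenerate graphs: relations between two triples
-/

namespace Prism.TD

variable {K : Type*} [Field K]

/-- Cramer's relation between five vectors -/
theorem s2_cramer5 (v1 v2 v3 v4 v5 : Fin 4 → K) :
    det4 v2 v3 v4 v5 • v1 - det4 v1 v3 v4 v5 • v2 + det4 v1 v2 v4 v5 • v3 -
      det4 v1 v2 v3 v5 • v4 + det4 v1 v2 v3 v4 • v5 = 0 := by
  ext j
  fin_cases j <;>
  · simp [det4, Matrix.det_succ_row_zero, Fin.sum_univ_succ, Fin.succAbove]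
    ring

theorem s2_cyc (a b c d : Fin 4 → K) : det4 b c d a = - det4 a b c d := by
  simp [det4, Matrix.det_succ_row_zero, Fin.sum_univ_succ, Fin.succAbove]
  ring

theorem s2_swap12 (a b c d : Fin 4 → K) : det4 b a c d = - det4 a b c d := by
  simp [det4, Matrix.det_succ_row_zero, Fin.sum_univ_succ, Fin.succAbove]
  ring

theorem s2_swap34 (a b c d : Fin 4 → K) : det4 a b d c = - det4 a b c d := by
  simp [det4, Matrix.det_succ_row_zero, Fin.sum_univ_succ, Fin.succAbove]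
  ring

theorem s2_li_zero {a b c d : Fin 4 → K} (h : det4 a b c d ≠ 0) {x y z w : K}
    (he : x • a + y • b + z • c + w • d = 0) : x = 0 ∧ y = 0 ∧ z = 0 ∧ w = 0 := by
  have hl := (det4_ne_zero_iff a b c d).1 h
  rw [Fintype.linearIndependent_iff] at hl
  have := hl ![x, y, z, w] (by simpa [Fin.sum_univ_four] using he)
  exact ⟨this 0, this 1, this 2, this 3⟩

/-- two relations with zeros at `a 0`, resp. `a 1`, span all relations -/
theorem s2_comb (a b : Fin 3 → Fin 4 → K) (h : GP a b) {α₁ β₁ α₂ β₂ α β : Fin 3 → K}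
    (r₁ : Rel a b α₁ β₁) (r₂ : Rel a b α₂ β₂) (r : Rel a b α β)
    (h1 : α₁ 0 = 0) (h1' : α₁ 1 ≠ 0) (h2 : α₂ 1 = 0) (h2' : α₂ 0 ≠ 0) :
    ∃ s t : K, s • α₁ + t • α₂ = α ∧ s • β₁ + t • β₂ = β := by
  refine ⟨α 1 / α₁ 1, α 0 / α₂ 0, ?_⟩
  set s := α 1 / α₁ 1 with hs
  set t := α 0 / α₂ 0 with ht
  have e0 : s * α₁ 0 + t * α₂ 0 = α 0 := by
    rw [h1, ht]; field_simp; simp
  have e1 : s * α₁ 1 + t * α₂ 1 = α 1 := by
    rw [h2, hs]; field_simp; simp
  have hd := h.2.2 2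
  have key : (s * β₁ 0 + t * β₂ 0 - β 0) • b 0 + (s * β₁ 1 + t * β₂ 1 - β 1) • b 1 +
      (s * β₁ 2 + t * β₂ 2 - β 2) • b 2 + (-(s * α₁ 2 + t * α₂ 2 - α 2)) • a 2 = 0 := by
    unfold Rel at r₁ r₂ r
    have h3 : s • (α₁ 0 • a 0 + α₁ 1 • a 1 + α₁ 2 • a 2) +
        t • (α₂ 0 • a 0 + α₂ 1 • a 1 + α₂ 2 • a 2) - (α 0 • a 0 + α 1 • a 1 + α 2 • a 2) =
        s • (β₁ 0 • b 0 + β₁ 1 • b 1 + β₁ 2 • b 2) +
        t • (β₂ 0 • b 0 + β₂ 1 • b 1 + β₂ 2 • b 2) - (β 0 • b 0 + β 1 • b 1 + β 2 • b 2) := by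
      rw [r₁, r₂, r]
    have h4 : s • (α₁ 0 • a 0 + α₁ 1 • a 1 + α₁ 2 • a 2) +
        t • (α₂ 0 • a 0 + α₂ 1 • a 1 + α₂ 2 • a 2) - (α 0 • a 0 + α 1 • a 1 + α 2 • a 2) =
        (s * α₁ 2 + t * α₂ 2 - α 2) • a 2 := by
      have h5 : s • (α₁ 0 • a 0 + α₁ 1 • a 1 + α₁ 2 • a 2) +
        t • (α₂ 0 • a 0 + α₂ 1 • a 1 + α₂ 2 • a 2) - (α 0 • a 0 + α 1 • a 1 + α 2 • a 2) =
        (s * α₁ 0 + t * α₂ 0 - α 0) • a 0 + (s * α₁ 1 + t * α₂ 1 - α 1) • a 1 +
        (s * α₁ 2 + t * α₂ 2 - α 2) • a 2 := by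
        module
      rw [h5, e0, e1]
      simp
    rw [h4] at h3
    rw [neg_smul, h3]
    module
  obtain ⟨k0, k1, k2, k3⟩ := s2_li_zero hd key
  have e2 : s * α₁ 2 + t * α₂ 2 = α 2 := by
    have := neg_eq_zero.1 k3
    exact sub_eq_zero.1 this
  constructor
  · funext j
    fin_cases j
    · simpa using e0
    · simpa using e1
    · simpa using e2
  · funext j
    fin_cases j
    · simpa using sub_eq_zero.1 k0
    · simpa using sub_eq_zero.1 k1
    · simpa using sub_eq_zero.1 k2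

/-- the relation without `a 0` (for any numbering of the `a i`) -/
theorem s2_rel (p q r : Fin 4 → K) (b : Fin 3 → Fin 4 → K) :
    (0 : K) • p + det4 r (b 0) (b 1) (b 2) • q + (-det4 q (b 0) (b 1) (b 2)) • r =
      (-det4 q r (b 1) (b 2)) • b 0 + det4 q r (b 0) (b 2) • b 1 +
        (-det4 q r (b 0) (b 1)) • b 2 := by
  have h := s2_cramer5 q r (b 0) (b 1) (b 2)
  have : det4 r (b 0) (b 1) (b 2) • q =
      det4 q (b 0) (b 1) (b 2) • r - det4 q r (b 1) (b 2) • b 0 + det4 q r (b 0) (b 2) • b 1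
        - det4 q r (b 0) (b 1) • b 2 := by
    rw [← sub_eq_zero, ← h]
    module
  rw [this]
  module

/-- S2: two relations, every single coefficient can be made zero, then no other one is zero -/
theorem rel_exists (a b : Fin 3 → Fin 4 → K) (h : GP a b) :
    ∃ α₁ β₁ α₂ β₂ : Fin 3 → K, Rel a b α₁ β₁ ∧ Rel a b α₂ β₂ ∧
      (∀ i, ∃ s t : K, (s • α₁ + t • α₂) i = 0 ∧ (∀ j, j ≠ i → (s • α₁ + t • α₂) j ≠ 0) ∧
        (∀ j, (s • β₁ + t • β₂) j ≠ 0)) ∧
      (∀ i, ∃ s t : K, (s • β₁ + t • β₂) i = 0 ∧ (∀ j, j ≠ i → (s • β₁ + t • β₂) j ≠ 0) ∧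
        (∀ j, (s • α₁ + t • α₂) j ≠ 0)) := by
  obtain ⟨hg1, hg2, hg3⟩ := h
  have hab : ∀ i j : Fin 3, det4 (a (i + 1)) (a (i + 2)) (b (j + 1)) (b (j + 2)) ≠ 0 := hg1
  -- all the determinants in the order used below
  have A12 : ∀ j : Fin 3, det4 (a 1) (a 2) (b (j + 1)) (b (j + 2)) ≠ 0 := fun j => hg1 0 j
  have A20 : ∀ j : Fin 3, det4 (a 2) (a 0) (b (j + 1)) (b (j + 2)) ≠ 0 := fun j => hg1 1 j
  have A01 : ∀ j : Fin 3, det4 (a 0) (a 1) (b (j + 1)) (b (j + 2)) ≠ 0 := fun j => hg1 2 j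
  have A02 : ∀ j : Fin 3, det4 (a 0) (a 2) (b (j + 1)) (b (j + 2)) ≠ 0 := fun j => by
    rw [s2_swap12]; exact neg_ne_zero.2 (A20 j)
  have S : ∀ {p q r s : Fin 4 → K}, det4 p q r s ≠ 0 → det4 p q s r ≠ 0 := fun {p q r s} hh => by
    rw [s2_swap34]; exact neg_ne_zero.2 hh
  have B3 : ∀ i : Fin 3, det4 (a i) (b 0) (b 1) (b 2) ≠ 0 := fun i => by
    have := hg3 i
    rwa [s2_cyc, neg_ne_zero] at this
  have A3 : ∀ i : Fin 3, det4 (b i) (a 0) (a 1) (a 2) ≠ 0 := fun i => by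
    have := hg2 i
    rwa [s2_cyc, neg_ne_zero] at this
  have T : ∀ {p q r s : Fin 4 → K}, det4 p q r s ≠ 0 → det4 r s p q ≠ 0 := fun {p q r s} hh => by
    have e : det4 r s p q = det4 p q r s := by
      rw [s2_cyc q r s p, s2_cyc p q r s, neg_neg]
    rw [e]; exact hh
  -- the six relations
  let α0 : Fin 3 → K := ![0, det4 (a 2) (b 0) (b 1) (b 2), -det4 (a 1) (b 0) (b 1) (b 2)]
  let β0 : Fin 3 → K := ![-det4 (a 1) (a 2) (b 1) (b 2), det4 (a 1) (a 2) (b 0) (b 2),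
    -det4 (a 1) (a 2) (b 0) (b 1)]
  let α1 : Fin 3 → K := ![det4 (a 2) (b 0) (b 1) (b 2), 0, -det4 (a 0) (b 0) (b 1) (b 2)]
  let β1 : Fin 3 → K := ![-det4 (a 0) (a 2) (b 1) (b 2), det4 (a 0) (a 2) (b 0) (b 2),
    -det4 (a 0) (a 2) (b 0) (b 1)]
  let α2 : Fin 3 → K := ![det4 (a 1) (b 0) (b 1) (b 2), -det4 (a 0) (b 0) (b 1) (b 2), 0]
  let β2 : Fin 3 → K := ![-det4 (a 0) (a 1) (b 1) (b 2), det4 (a 0) (a 1) (b 0) (b 2),
    -det4 (a 0) (a 1) (b 0) (b 1)]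
  let β0' : Fin 3 → K := ![0, det4 (b 2) (a 0) (a 1) (a 2), -det4 (b 1) (a 0) (a 1) (a 2)]
  let α0' : Fin 3 → K := ![-det4 (b 1) (b 2) (a 1) (a 2), det4 (b 1) (b 2) (a 0) (a 2),
    -det4 (b 1) (b 2) (a 0) (a 1)]
  let β1' : Fin 3 → K := ![det4 (b 2) (a 0) (a 1) (a 2), 0, -det4 (b 0) (a 0) (a 1) (a 2)]
  let α1' : Fin 3 → K := ![-det4 (b 0) (b 2) (a 1) (a 2), det4 (b 0) (b 2) (a 0) (a 2),
    -det4 (b 0) (b 2) (a 0) (a 1)]
  let β2' : Fin 3 → K := ![det4 (b 1) (a 0) (a 1) (a 2), -det4 (b 0) (a 0) (a 1) (a 2), 0]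
  let α2' : Fin 3 → K := ![-det4 (b 0) (b 1) (a 1) (a 2), det4 (b 0) (b 1) (a 0) (a 2),
    -det4 (b 0) (b 1) (a 0) (a 1)]
  have R0 : Rel a b α0 β0 := s2_rel (a 0) (a 1) (a 2) b
  have R1 : Rel a b α1 β1 := by
    have := s2_rel (a 1) (a 0) (a 2) b
    unfold Rel
    change det4 (a 2) (b 0) (b 1) (b 2) • a 0 + (0 : K) • a 1 +
      (-det4 (a 0) (b 0) (b 1) (b 2)) • a 2 = _
    refine Eq.trans ?_ this; module
  have R2 : Rel a b α2 β2 := by
    have := s2_rel (a 2) (a 0) (a 1) b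
    unfold Rel
    change det4 (a 1) (b 0) (b 1) (b 2) • a 0 + (-det4 (a 0) (b 0) (b 1) (b 2)) • a 1 +
      (0 : K) • a 2 = _
    refine Eq.trans ?_ this; module
  have R0' : Rel a b α0' β0' := (s2_rel (b 0) (b 1) (b 2) a).symm
  have R1' : Rel a b α1' β1' := by
    have := s2_rel (b 1) (b 0) (b 2) a
    unfold Rel
    change _ = det4 (b 2) (a 0) (a 1) (a 2) • b 0 + (0 : K) • b 1 +
      (-det4 (b 0) (a 0) (a 1) (a 2)) • b 2
    refine Eq.trans this.symm ?_; module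
  have R2' : Rel a b α2' β2' := by
    have := s2_rel (b 2) (b 0) (b 1) a
    unfold Rel
    change _ = det4 (b 1) (a 0) (a 1) (a 2) • b 0 + (-det4 (b 0) (a 0) (a 1) (a 2)) • b 1 +
      (0 : K) • b 2
    refine Eq.trans this.symm ?_; module
  have C : ∀ {α β : Fin 3 → K}, Rel a b α β →
      ∃ s t : K, s • α0 + t • α1 = α ∧ s • β0 + t • β1 = β := fun {α β} hr =>
    s2_comb a b ⟨hg1, hg2, hg3⟩ R0 R1 hr rfl (B3 2) rfl (B3 2)
  have N : ∀ {x : K}, x ≠ 0 → -x ≠ 0 := fun {x} hx => neg_ne_zero.2 hx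
  refine ⟨α0, β0, α1, β1, R0, R1, ?_, ?_⟩
  · intro i
    fin_cases i
    · obtain ⟨s, t, e1, e2⟩ := C R0
      refine ⟨s, t, ?_, ?_, ?_⟩
      · rw [e1]; rfl
      · rw [e1]; intro j hj
        fin_cases j
        · exact absurd rfl hj
        · exact B3 2
        · exact N (B3 1)
      · rw [e2]; intro j
        fin_cases j
        · exact N (A12 0)
        · exact S (A12 1)
        · exact N (A12 2)
    · obtain ⟨s, t, e1, e2⟩ := C R1
      refine ⟨s, t, ?_, ?_, ?_⟩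
      · rw [e1]; rfl
      · rw [e1]; intro j hj
        fin_cases j
        · exact B3 2
        · exact absurd rfl hj
        · exact N (B3 0)
      · rw [e2]; intro j
        fin_cases j
        · exact N (A02 0)
        · exact S (A02 1)
        · exact N (A02 2)
    · obtain ⟨s, t, e1, e2⟩ := C R2
      refine ⟨s, t, ?_, ?_, ?_⟩
      · rw [e1]; rfl
      · rw [e1]; intro j hj
        fin_cases j
        · exact B3 1
        · exact N (B3 0)
        · exact absurd rfl hj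
      · rw [e2]; intro j
        fin_cases j
        · exact N (A01 0)
        · exact S (A01 1)
        · exact N (A01 2)
  · intro i
    fin_cases i
    · obtain ⟨s, t, e1, e2⟩ := C R0'
      refine ⟨s, t, ?_, ?_, ?_⟩
      · rw [e2]; rfl
      · rw [e2]; intro j hj
        fin_cases j
        · exact absurd rfl hj
        · exact A3 2
        · exact N (A3 1)
      · rw [e1]; intro j
        fin_cases j
        · exact N (T (A12 0))
        · exact T (A02 0)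
        · exact N (T (A01 0))
    · obtain ⟨s, t, e1, e2⟩ := C R1'
      refine ⟨s, t, ?_, ?_, ?_⟩
      · rw [e2]; rfl
      · rw [e2]; intro j hj
        fin_cases j
        · exact A3 2
        · exact absurd rfl hj
        · exact N (A3 0)
      · rw [e1]; intro j
        fin_cases j
        · exact N (T (S (A12 1)))
        · exact T (S (A02 1))
        · exact N (T (S (A01 1)))
    · obtain ⟨s, t, e1, e2⟩ := C R2'
      refine ⟨s, t, ?_, ?_, ?_⟩
      · rw [e2]; rfl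
      · rw [e2]; intro j hj
        fin_cases j
        · exact A3 1
        · exact N (A3 0)
        · exact absurd rfl hj
      · rw [e1]; intro j
        fin_cases j
        · exact N (T (A12 2))
        · exact T (A02 2)
        · exact N (T (A01 2))

end Prism.TD
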