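import Pool.Agent.Lib.PrismTD.Defs

/-!
# The new triple is in perspective with both old triples
-/

namespace Prism.TD

section algebra
variable {K : Type*} [Field K]

theorem s3_det (p q P : Fin 4 → K) (c c' t t' : K) :
    det4 (c • p + t • P) (c' • q + t' • P) p q = 0 := by
  unfold det4
  simp [Matrix.det_succ_row_zero, Fin.sum_univ_succ, Fin.succAbove]
  ring

/-- `P` in cyclic form -/
theorem s3_rel {a b : Fin 3 → Fin 4 → K} {α β : Fin 3 → K} (h : Rel a b α β) :
    dv a b α β 2 = - dv a b α β 0 - dv a b α β 1 := by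
  unfold Rel at h
  unfold dv
  have h' : α 2 • a 2 = β 0 • b 0 + β 1 • b 1 + β 2 • b 2 - α 0 • a 0 - α 1 • a 1 := by
    rw [← h]; abel
  rw [h']; abel

/-- the part of the new triple which does not depend on `i` -/
theorem s3_xv_b (a b : Fin 3 → Fin 4 → K) (α β τ : Fin 3 → K) (h : Rel a b α β) (i : Fin 3) :
    xv a b α β τ i = (sg τ (i + 1) * sg τ (i + 2) * β i) • b i +
      ((sg τ 1 * sg τ 2) • dv a b α β 0 + τ 0 • pv a b α β τ) := by
  have h2 := s3_rel h
  have e : ∀ i, α i • a i = dv a b α β i + β i • b i := fun i => by unfold dv; abel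
  unfold xv pv
  rw [mul_smul (sg τ (i + 1) * sg τ (i + 2)), e i]
  fin_cases i
  · simp only [sg]
    funext k
    simp
    ring
  · simp only [sg]
    funext k
    simp
    ring
  · simp only [sg]
    rw [show (⟨2, by omega⟩ : Fin 3) = 2 from rfl]
    simp only [h2]
    funext k
    simp
    ring

/-- S3: perspective with `a` -/
theorem xv_dep_a (a b : Fin 3 → Fin 4 → K) (α β τ : Fin 3 → K) (i : Fin 3) :
    det4 (xv a b α β τ (i + 1)) (xv a b α β τ (i + 2)) (a (i + 1)) (a (i + 2)) = 0 :=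
  s3_det _ _ _ _ _ _ _

/-- S3: perspective with `b` -/
theorem xv_dep_b (a b : Fin 3 → Fin 4 → K) (α β τ : Fin 3 → K) (h : Rel a b α β) (i : Fin 3) :
    det4 (xv a b α β τ (i + 1)) (xv a b α β τ (i + 2)) (b (i + 1)) (b (i + 2)) = 0 := by
  rw [s3_xv_b a b α β τ h (i + 1), s3_xv_b a b α β τ h (i + 2)]
  have e := s3_det (b (i + 1)) (b (i + 2))
    ((sg τ 1 * sg τ 2) • dv a b α β 0 + τ 0 • pv a b α β τ)
    (sg τ (i + 1 + 1) * sg τ (i + 1 + 2) * β (i + 1))
    (sg τ (i + 2 + 1) * sg τ (i + 2 + 2) * β (i + 2)) 1 1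
  rw [one_smul] at e
  exact e

end algebra

end Prism.TD
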