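import Pool.Agent.Lib.PrismTD.S3
import Pool.Agent.Lib.PrismTD.S1

/-!
# One new vector
-/

namespace Prism.TD

section algebra
variable {K : Type*} [Field K]

/-- `det4 (·) y z w` as a linear map -/
def s4_f (y z w : Fin 4 → K) : (Fin 4 → K) →ₗ[K] K where
  toFun x := det4 x y z w
  map_add' p q := by
    unfold det4
    simp [Matrix.det_succ_row_zero, Fin.sum_univ_succ, Fin.succAbove]
    ring
  map_smul' c p := by
    unfold det4
    simp [Matrix.det_succ_row_zero, Fin.sum_univ_succ, Fin.succAbove]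
    ring

theorem s4_f_apply (x y z w : Fin 4 → K) : s4_f y z w x = det4 x y z w := rfl

/-- if `y, z, w` are independent, the linear form does not vanish on a basis -/
theorem s4_basis {y z w : Fin 4 → K} (hi : LinearIndependent K ![y, z, w])
    {p q r t : Fin 4 → K} (hb : LinearIndependent K ![p, q, r, t]) (hp : s4_f y z w p = 0)
    (hq : s4_f y z w q = 0) (hr : s4_f y z w r = 0) (ht : s4_f y z w t = 0) : False := by
  have hspan : Submodule.span K (Set.range ![p, q, r, t]) = ⊤ :=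
    hb.span_eq_top_of_card_eq_finrank (by simp)
  have h0 : ∀ x, s4_f y z w x = 0 := by
    intro x
    have hx : x ∈ Submodule.span K (Set.range ![p, q, r, t]) := by rw [hspan]; trivial
    have hle : Submodule.span K (Set.range ![p, q, r, t]) ≤ LinearMap.ker (s4_f y z w) := by
      rw [Submodule.span_le]
      rintro _ ⟨k, rfl⟩
      fin_cases k
      · exact hp
      · exact hq
      · exact hr
      · exact ht
    exact hle hx
  -- there is `x` outside the span of `y, z, w`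
  have hlt : Submodule.span K (Set.range ![y, z, w]) ≠ ⊤ := by
    intro h
    have h1 := finrank_span_eq_card hi
    rw [h, finrank_top] at h1
    simp at h1
  obtain ⟨x, hx⟩ : ∃ x, x ∉ Submodule.span K (Set.range ![y, z, w]) := by
    by_contra hcon
    push Not at hcon
    exact hlt (Submodule.eq_top_iff'.2 hcon)
  have h4 : LinearIndependent K ![x, y, z, w] :=
    (linearIndependent_finCons (x := x) (v := ![y, z, w])).2 ⟨hi, hx⟩
  exact (det4_ne_zero_iff x y z w).2 h4 (h0 x)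

/-- S4: one new vector -/
theorem nz1 (a b : Fin 3 → Fin 4 → K) (h : GP a b) (α₁ β₁ α₂ β₂ : Fin 3 → K)
    (r₁ : Rel a b α₁ β₁) (r₂ : Rel a b α₂ β₂)
    (hα : ∀ i, ∃ s t : K, (s • α₁ + t • α₂) i = 0 ∧ (∀ j, j ≠ i → (s • α₁ + t • α₂) j ≠ 0) ∧
        (∀ j, (s • β₁ + t • β₂) j ≠ 0))
    (hβ : ∀ i, ∃ s t : K, (s • β₁ + t • β₂) i = 0 ∧ (∀ j, j ≠ i → (s • β₁ + t • β₂) j ≠ 0) ∧
        (∀ j, (s • α₁ + t • α₂) j ≠ 0))
    (y z w : Fin 4 → K) (hi : LinearIndependent K ![y, z, w]) (i : Fin 3) :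
    ∃ (s t : K) (τ : Fin 3 → K),
      det4 (xv a b (s • α₁ + t • α₂) (s • β₁ + t • β₂) τ i) y z w ≠ 0 := by
  by_contra hcon
  push Not at hcon
  have hrel : ∀ s t : K, Rel a b (s • α₁ + t • α₂) (s • β₁ + t • β₂) := by
    intro s t
    unfold Rel at r₁ r₂ ⊢
    have e1 : (s • α₁ + t • α₂) 0 • a 0 + (s • α₁ + t • α₂) 1 • a 1 + (s • α₁ + t • α₂) 2 • a 2 =
        s • (α₁ 0 • a 0 + α₁ 1 • a 1 + α₁ 2 • a 2) + t • (α₂ 0 • a 0 + α₂ 1 • a 1 + α₂ 2 • a 2) := by
      funext k
      simp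
      ring
    rw [e1, r₁, r₂]
    funext k
    simp
    ring
  set f := s4_f y z w with hf
  have h0 : ∀ (s t : K) (τ : Fin 3 → K),
      f (xv a b (s • α₁ + t • α₂) (s • β₁ + t • β₂) τ i) = 0 := hcon
  -- `f` vanishes on `a i`
  have hai : ∀ s t : K, (s • α₁ + t • α₂) i * f (a i) = 0 := by
    intro s t
    have h1 := h0 s t (fun k => if k = i then 0 else 1)
    have e : xv a b (s • α₁ + t • α₂) (s • β₁ + t • β₂) (fun k => if k = i then 0 else 1) i =
        (-(s • α₁ + t • α₂) i) • a i := by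
      unfold xv sg
      fin_cases i <;> simp
    rw [e, map_smul, smul_eq_mul, neg_mul, neg_eq_zero] at h1
    exact h1
  have hai0 : f (a i) = 0 := by
    obtain ⟨s, t, -, -, h3⟩ : ∃ s t : K, (s • β₁ + t • β₂) i = 0 ∧
      (∀ j, j ≠ i → (s • β₁ + t • β₂) j ≠ 0) ∧ (∀ j, (s • α₁ + t • α₂) j ≠ 0) := hβ i
    rcases mul_eq_zero.1 (hai s t) with h4 | h4
    · exact absurd h4 (h3 i)
    · exact h4
  -- `f` vanishes on the `d j`
  have hxy : ∀ s t x y' : K, f (x • dv a b (s • α₁ + t • α₂) (s • β₁ + t • β₂) 1 -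
      y' • dv a b (s • α₁ + t • α₂) (s • β₁ + t • β₂) 0) = 0 := by
    intro s t x y'
    obtain ⟨τ, h1, h2, h3⟩ : ∃ τ : Fin 3 → K, τ i = 1 ∧ sg τ 0 = x ∧ sg τ 1 = y' := by
      fin_cases i
      · exact ⟨![1, 1 + y' + x, 1 + y'], by simp, by simp [sg], by simp [sg]⟩
      · exact ⟨![1 - x - y', 1, 1 - x], by simp, by simp [sg], by simp [sg]⟩
      · exact ⟨![1 - y', 1 + x, 1], by simp, by simp [sg], by simp [sg]⟩
    have h4 := h0 s t τ
    unfold xv at h4
    rw [map_add, map_smul, map_smul, hai0, h1, smul_zero, zero_add, one_smul] at h4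
    unfold pv at h4
    rw [h2, h3] at h4
    exact h4
  have hd : ∀ (s t : K) (j : Fin 3),
      f (dv a b (s • α₁ + t • α₂) (s • β₁ + t • β₂) j) = 0 := by
    intro s t
    have d1 : f (dv a b (s • α₁ + t • α₂) (s • β₁ + t • β₂) 1) = 0 := by
      have := hxy s t 1 0
      rwa [one_smul, zero_smul, sub_zero] at this
    have d0 : f (dv a b (s • α₁ + t • α₂) (s • β₁ + t • β₂) 0) = 0 := by
      have := hxy s t 0 1
      rwa [one_smul, zero_smul, zero_sub, map_neg, neg_eq_zero] at this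
    have d2 : f (dv a b (s • α₁ + t • α₂) (s • β₁ + t • β₂) 2) = 0 := by
      rw [s3_rel (hrel s t), map_sub, map_neg, d0, d1, neg_zero, sub_zero]
    intro j
    fin_cases j
    · exact d0
    · exact d1
    · exact d2
  have hd' : ∀ (s t : K) (j : Fin 3),
      (s • α₁ + t • α₂) j * f (a j) = (s • β₁ + t • β₂) j * f (b j) := by
    intro s t j
    have h1 := hd s t j
    unfold dv at h1
    rw [map_sub, map_smul, map_smul, smul_eq_mul, smul_eq_mul, sub_eq_zero] at h1
    exact h1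
  have hb0 : ∀ j, f (b j) = 0 := by
    intro j
    obtain ⟨s, t, h1, -, h3⟩ := hα j
    have h4 := hd' s t j
    rw [h1, zero_mul] at h4
    rcases mul_eq_zero.1 h4.symm with h5 | h5
    · exact absurd h5 (h3 j)
    · exact h5
  have ha0 : ∀ j, f (a j) = 0 := by
    intro j
    obtain ⟨s, t, h1, -, h3⟩ := hβ j
    have h4 := hd' s t j
    rw [h1, zero_mul] at h4
    rcases mul_eq_zero.1 h4 with h5 | h5
    · exact absurd h5 (h3 j)
    · exact h5
  exact s4_basis hi ((det4_ne_zero_iff _ _ _ _).1 (h.2.1 0)) (ha0 0) (ha0 1) (ha0 2) (hb0 0)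

end algebra

end Prism.TD
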