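import Pool.Agent.Lib.PrismTD.Defs

/-! S5 (nz2): two new vectors (helper2). -/

namespace Prism.TD

open Submodule

variable {K : Type*} [Field K]

lemma s5_det4 (a b c d : Fin 4 → K) : det4 a b c d =
    a 0 * (b 1 * (c 2 * d 3 - c 3 * d 2) - b 2 * (c 1 * d 3 - c 3 * d 1)
      + b 3 * (c 1 * d 2 - c 2 * d 1))
    - a 1 * (b 0 * (c 2 * d 3 - c 3 * d 2) - b 2 * (c 0 * d 3 - c 3 * d 0)
      + b 3 * (c 0 * d 2 - c 2 * d 0))
    + a 2 * (b 0 * (c 1 * d 3 - c 3 * d 1) - b 1 * (c 0 * d 3 - c 3 * d 0)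
      + b 3 * (c 0 * d 1 - c 1 * d 0))
    - a 3 * (b 0 * (c 1 * d 2 - c 2 * d 1) - b 1 * (c 0 * d 2 - c 2 * d 0)
      + b 2 * (c 0 * d 1 - c 1 * d 0)) := by
  unfold det4
  simp [Matrix.det_succ_row_zero, Fin.sum_univ_succ, Fin.succAbove]
  ring

lemma s5_coords (a b c d y : Fin 4 → K) (h : det4 a b c d ≠ 0) :
    ∃ e : Fin 4 → K, y = e 0 • a + e 1 • b + e 2 • c + e 3 • d := by
  let M : Matrix (Fin 4) (Fin 4) K := Matrix.of ![a, b, c, d]
  have hM : IsUnit M.det := isUnit_iff_ne_zero.2 h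
  refine ⟨Matrix.vecMul y M⁻¹, ?_⟩
  have h1 : Matrix.vecMul (Matrix.vecMul y M⁻¹) M = y := by
    rw [Matrix.vecMul_vecMul, Matrix.nonsing_inv_mul _ hM, Matrix.vecMul_one]
  generalize Matrix.vecMul y M⁻¹ = e at h1
  rw [← h1]
  ext j
  simp [Matrix.vecMul, dotProduct, Fin.sum_univ_succ, M]
  ring

/-- the pencil argument -/
lemma s5_inLine (a₁ a₂ b₁ b₂ y z : Fin 4 → K) (h : det4 a₁ a₂ b₁ b₂ ≠ 0)
    (hi : LinearIndependent K ![y, z])
    (h11 : det4 a₁ b₁ y z = 0) (h12 : det4 a₁ b₂ y z = 0)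
    (h21 : det4 a₂ b₁ y z = 0) (h22 : det4 a₂ b₂ y z = 0) :
    InLine a₁ a₂ y z ∨ InLine b₁ b₂ y z := by
  obtain ⟨e, he⟩ := s5_coords a₁ a₂ b₁ b₂ y h
  obtain ⟨f, hf⟩ := s5_coords a₁ a₂ b₁ b₂ z h
  have k11 : e 1 * f 3 - e 3 * f 1 = 0 := by
    have : det4 a₁ b₁ y z = -(e 1 * f 3 - e 3 * f 1) * det4 a₁ a₂ b₁ b₂ := by
      rw [he, hf]; simp only [s5_det4, Pi.add_apply, Pi.smul_apply, smul_eq_mul]; ring
    rw [this] at h11
    exact neg_eq_zero.1 ((mul_eq_zero.1 h11).resolve_right h)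
  have k12 : e 1 * f 2 - e 2 * f 1 = 0 := by
    have : det4 a₁ b₂ y z = (e 1 * f 2 - e 2 * f 1) * det4 a₁ a₂ b₁ b₂ := by
      rw [he, hf]; simp only [s5_det4, Pi.add_apply, Pi.smul_apply, smul_eq_mul]; ring
    rw [this] at h12
    simpa [h] using h12
  have k21 : e 0 * f 3 - e 3 * f 0 = 0 := by
    have : det4 a₂ b₁ y z = (e 0 * f 3 - e 3 * f 0) * det4 a₁ a₂ b₁ b₂ := by
      rw [he, hf]; simp only [s5_det4, Pi.add_apply, Pi.smul_apply, smul_eq_mul]; ring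
    rw [this] at h21
    simpa [h] using h21
  have k22 : e 0 * f 2 - e 2 * f 0 = 0 := by
    have : det4 a₂ b₂ y z = -(e 0 * f 2 - e 2 * f 0) * det4 a₁ a₂ b₁ b₂ := by
      rw [he, hf]; simp only [s5_det4, Pi.add_apply, Pi.smul_apply, smul_eq_mul]; ring
    rw [this] at h22
    exact neg_eq_zero.1 ((mul_eq_zero.1 h22).resolve_right h)
  by_cases hb : e 2 = 0 ∧ e 3 = 0 ∧ f 2 = 0 ∧ f 3 = 0
  · obtain ⟨h2, h3, h2', h3'⟩ := hb
    left
    constructor
    · refine mem_span_pair.2 ⟨e 0, e 1, ?_⟩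
      rw [he, h2, h3]; simp
    · refine mem_span_pair.2 ⟨f 0, f 1, ?_⟩
      rw [hf, h2', h3']; simp
  by_cases ha : e 0 = 0 ∧ e 1 = 0 ∧ f 0 = 0 ∧ f 1 = 0
  · obtain ⟨h0, h1, h0', h1'⟩ := ha
    right
    constructor
    · refine mem_span_pair.2 ⟨e 2, e 3, ?_⟩
      rw [he, h0, h1]; simp
    · refine mem_span_pair.2 ⟨f 2, f 3, ?_⟩
      rw [hf, h0', h1']; simp
  exfalso
  have m01 : f 0 * e 1 - e 0 * f 1 = 0 := by
    have c1 : (f 0 * e 1 - e 0 * f 1) * e 2 = 0 := by linear_combination e 0 * k12 - e 1 * k22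
    have c2 : (f 0 * e 1 - e 0 * f 1) * e 3 = 0 := by linear_combination e 0 * k11 - e 1 * k21
    have c3 : (f 0 * e 1 - e 0 * f 1) * f 2 = 0 := by linear_combination f 0 * k12 - f 1 * k22
    have c4 : (f 0 * e 1 - e 0 * f 1) * f 3 = 0 := by linear_combination f 0 * k11 - f 1 * k21
    by_contra hne
    exact hb ⟨(mul_eq_zero.1 c1).resolve_left hne, (mul_eq_zero.1 c2).resolve_left hne,
      (mul_eq_zero.1 c3).resolve_left hne, (mul_eq_zero.1 c4).resolve_left hne⟩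
  have hp := LinearIndependent.pair_iff.1 hi
  have r0 : f 0 = 0 ∧ -e 0 = 0 := by
    apply hp
    rw [he, hf]
    ext j
    simp only [Pi.add_apply, Pi.smul_apply, smul_eq_mul, Pi.zero_apply]
    linear_combination a₂ j * m01 - b₁ j * k22 - b₂ j * k21
  have r1 : f 1 = 0 ∧ -e 1 = 0 := by
    apply hp
    rw [he, hf]
    ext j
    simp only [Pi.add_apply, Pi.smul_apply, smul_eq_mul, Pi.zero_apply]
    linear_combination -a₁ j * m01 - b₁ j * k12 - b₂ j * k11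
  exact ha ⟨neg_eq_zero.1 r0.2, neg_eq_zero.1 r1.2, r0.1, r1.1⟩

lemma s5_pv (a b : Fin 3 → Fin 4 → K) (α β τ : Fin 3 → K) (h : Rel a b α β) (i : Fin 3) :
    pv a b α β τ = sg τ i • dv a b α β (i + 1) - sg τ (i + 1) • dv a b α β i := by
  unfold Rel at h
  have h' : ∀ j, α 0 * a 0 j + α 1 * a 1 j + α 2 * a 2 j
      = β 0 * b 0 j + β 1 * b 1 j + β 2 * b 2 j := fun j => by
    have := congrFun h j
    simpa using this
  fin_cases i
  · simp [pv]
  · ext j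
    simp [pv, dv, sg]
    linear_combination (τ 0 - τ 2) * h' j
  · ext j
    simp [pv, dv, sg]
    linear_combination (τ 1 - τ 2) * h' j

/-- with `τ (i+1) = 0` -/
lemma s5_x1 (a b : Fin 3 → Fin 4 → K) (α β : Fin 3 → K) (h : Rel a b α β) (i : Fin 3)
    (s t : K) (y z : Fin 4 → K) : ∃ τ : Fin 3 → K,
    det4 (xv a b α β τ (i + 1)) (xv a b α β τ (i + 2)) y z =
      s * t ^ 2 * α (i + 1) * ((t - s) * β (i + 2) * det4 (a (i + 1)) (b (i + 2)) y z
        - s * β (i + 1) * det4 (a (i + 1)) (b (i + 1)) y z) := by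
  have h' : ∀ j, α 0 * a 0 j + α 1 * a 1 j + α 2 * a 2 j
      = β 0 * b 0 j + β 1 * b 1 j + β 2 * b 2 j := fun j => by
    have := congrFun h j
    simpa using this
  refine ⟨fun j => if j = i then s else if j = i + 1 then 0 else t, ?_⟩
  set τ : Fin 3 → K := fun j => if j = i then s else if j = i + 1 then 0 else t
  have e1 : xv a b α β τ (i + 1) = (-(s * t) * α (i + 1)) • a (i + 1) := by
    fin_cases i <;> simp [xv, τ, sg]
  have e2 : xv a b α β τ (i + 2) = (-t) • (((t - s) * β (i + 2)) • b (i + 2)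
      + s • (α (i + 1) • a (i + 1) - β (i + 1) • b (i + 1))) := by
    ext j
    have := h' j
    fin_cases i
    · simp [xv, τ, sg, pv, dv]; linear_combination (t * s - t ^ 2) * this
    · simp [xv, τ, sg, pv, dv]; linear_combination (t * s) * this
    · simp [xv, τ, sg, pv, dv]; ring
  rw [e1, e2]
  simp only [s5_det4, Pi.add_apply, Pi.sub_apply, Pi.smul_apply, smul_eq_mul]
  ring



/-- with `τ (i+2) = 0` -/
lemma s5_x2 (a b : Fin 3 → Fin 4 → K) (α β : Fin 3 → K) (h : Rel a b α β) (i : Fin 3)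
    (s t : K) (y z : Fin 4 → K) : ∃ τ : Fin 3 → K,
    det4 (xv a b α β τ (i + 1)) (xv a b α β τ (i + 2)) y z =
      s * t ^ 2 * α (i + 2) * ((s - t) * β (i + 1) * det4 (a (i + 2)) (b (i + 1)) y z
        + s * β (i + 2) * det4 (a (i + 2)) (b (i + 2)) y z) := by
  have h' : ∀ j, α 0 * a 0 j + α 1 * a 1 j + α 2 * a 2 j
      = β 0 * b 0 j + β 1 * b 1 j + β 2 * b 2 j := fun j => by
    have := congrFun h j
    simpa using this
  refine ⟨fun j => if j = i then s else if j = i + 1 then t else 0, ?_⟩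
  set τ : Fin 3 → K := fun j => if j = i then s else if j = i + 1 then t else 0
  have e1 : xv a b α β τ (i + 2) = (-(s * t) * α (i + 2)) • a (i + 2) := by
    fin_cases i <;> simp [xv, τ, sg] <;> ring_nf
  have e2 : xv a b α β τ (i + 1) = t • (((s - t) * β (i + 1)) • b (i + 1)
      - s • (α (i + 2) • a (i + 2) - β (i + 2) • b (i + 2))) := by
    ext j
    have := h' j
    fin_cases i
    · simp [xv, τ, sg, pv, dv]; linear_combination (t * s) * this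
    · simp [xv, τ, sg, pv, dv]; linear_combination (t * s - t ^ 2) * this
    · simp [xv, τ, sg, pv, dv]; ring
  rw [e1, e2]
  simp only [s5_det4, Pi.sub_apply, Pi.smul_apply, smul_eq_mul]
  ring

lemma s5_ne [Infinite K] : ∃ t : K, t ≠ 0 ∧ t ≠ 1 := by
  classical
  obtain ⟨t, ht⟩ := Infinite.exists_notMem_finset ({0, 1} : Finset K)
  simp at ht
  exact ⟨t, ht.1, ht.2⟩

/-- S5: two new vectors -/
theorem nz2 [Infinite K] (a b : Fin 3 → Fin 4 → K) (h : GP a b) (α₁ β₁ α₂ β₂ : Fin 3 → K)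
    (r₁ : Rel a b α₁ β₁) (r₂ : Rel a b α₂ β₂)
    (hα : ∀ i, ∃ s t : K, (s • α₁ + t • α₂) i = 0 ∧ (∀ j, j ≠ i → (s • α₁ + t • α₂) j ≠ 0) ∧
        (∀ j, (s • β₁ + t • β₂) j ≠ 0))
    (hβ : ∀ i, ∃ s t : K, (s • β₁ + t • β₂) i = 0 ∧ (∀ j, j ≠ i → (s • β₁ + t • β₂) j ≠ 0) ∧
        (∀ j, (s • α₁ + t • α₂) j ≠ 0))
    (y z : Fin 4 → K) (hi : LinearIndependent K ![y, z]) (i : Fin 3)
    (ha : ¬ InLine (a (i + 1)) (a (i + 2)) y z) (hb : ¬ InLine (b (i + 1)) (b (i + 2)) y z) :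
    ∃ (s t : K) (τ : Fin 3 → K),
      det4 (xv a b (s • α₁ + t • α₂) (s • β₁ + t • β₂) τ (i + 1))
        (xv a b (s • α₁ + t • α₂) (s • β₁ + t • β₂) τ (i + 2)) y z ≠ 0 := by
  by_contra hcon
  push Not at hcon
  obtain ⟨s₀, t₀, -, hA, hB⟩ := hα i
  have hrel : Rel a b (s₀ • α₁ + t₀ • α₂) (s₀ • β₁ + t₀ • β₂) := by
    unfold Rel at r₁ r₂ ⊢
    ext j
    have e1 := congrFun r₁ j
    have e2 := congrFun r₂ j
    simp only [Pi.add_apply, Pi.smul_apply, smul_eq_mul] at e1 e2 ⊢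
    linear_combination s₀ * e1 + t₀ * e2
  have hz := hcon s₀ t₀
  set α := s₀ • α₁ + t₀ • α₂
  set β := s₀ • β₁ + t₀ • β₂
  have a1 : α (i + 1) ≠ 0 := hA _ (by fin_cases i <;> decide)
  have a2 : α (i + 2) ≠ 0 := hA _ (by fin_cases i <;> decide)
  obtain ⟨c, hc0, hc1⟩ := s5_ne (K := K)
  have h11 : det4 (a (i + 1)) (b (i + 1)) y z = 0 := by
    obtain ⟨τ, hτ⟩ := s5_x1 a b α β hrel i 1 1 y z
    rw [hz τ] at hτ
    have := hB (i + 1)
    by_contra hne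
    apply mul_ne_zero (mul_ne_zero a1 this) hne
    linear_combination hτ
  have h12 : det4 (a (i + 1)) (b (i + 2)) y z = 0 := by
    obtain ⟨τ, hτ⟩ := s5_x1 a b α β hrel i 1 c y z
    rw [hz τ, h11] at hτ
    have := hB (i + 2)
    by_contra hne
    apply mul_ne_zero (mul_ne_zero (mul_ne_zero (mul_ne_zero (pow_ne_zero 2 hc0)
      (sub_ne_zero.2 hc1)) a1) this) hne
    linear_combination -hτ
  have h22 : det4 (a (i + 2)) (b (i + 2)) y z = 0 := by
    obtain ⟨τ, hτ⟩ := s5_x2 a b α β hrel i 1 1 y z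
    rw [hz τ] at hτ
    have := hB (i + 2)
    by_contra hne
    apply mul_ne_zero (mul_ne_zero a2 this) hne
    linear_combination -hτ
  have h21 : det4 (a (i + 2)) (b (i + 1)) y z = 0 := by
    obtain ⟨τ, hτ⟩ := s5_x2 a b α β hrel i 1 c y z
    rw [hz τ, h22] at hτ
    have := hB (i + 1)
    by_contra hne
    apply mul_ne_zero (mul_ne_zero (mul_ne_zero (mul_ne_zero (pow_ne_zero 2 hc0)
      (sub_ne_zero.2 hc1)) a2) this) hne
    linear_combination hτ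
  rcases s5_inLine _ _ _ _ y z (h.1 i i) hi h11 h12 h21 h22 with h1 | h1
  · exact ha h1
  · exact hb h1

end Prism.TD
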