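import Pool.Agent.Lib.PrismTD.Defs

/-!
# MP_343ccd_co, two-degenerate graphs: three new vectors
-/

namespace Prism.TD

variable {K : Type*} [Field K]

lemma s6_det4 (a b c d : Fin 4 → K) : det4 a b c d =
    a 0 * (b 1 * (c 2 * d 3 - c 3 * d 2) - b 2 * (c 1 * d 3 - c 3 * d 1)
      + b 3 * (c 1 * d 2 - c 2 * d 1))
    - a 1 * (b 0 * (c 2 * d 3 - c 3 * d 2) - b 2 * (c 0 * d 3 - c 3 * d 0)
      + b 3 * (c 0 * d 2 - c 2 * d 0))
    + a 2 * (b 0 * (c 1 * d 3 - c 3 * d 1) - b 1 * (c 0 * d 3 - c 3 * d 0)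
      + b 3 * (c 0 * d 1 - c 1 * d 0))
    - a 3 * (b 0 * (c 1 * d 2 - c 2 * d 1) - b 1 * (c 0 * d 2 - c 2 * d 0)
      + b 2 * (c 0 * d 1 - c 1 * d 0)) := by
  unfold det4
  rw [Matrix.det_succ_row_zero]
  simp only [Fin.sum_univ_four, Matrix.det_fin_three, Matrix.submatrix_apply, Matrix.of_apply]
  simp [Fin.succAbove, Fin.lt_def]
  ring


lemma s6_x0 (a b : Fin 3 → Fin 4 → K) (α β : Fin 3 → K) (t : K) :
    xv a b α β ![0, 1, t] 0 = (-t * α 0) • a 0 := by
  ext j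
  simp [xv, sg, pv, dv]

lemma s6_x1 (a b : Fin 3 → Fin 4 → K) (α β : Fin 3 → K) (t : K) :
    xv a b α β ![0, 1, t] 1 =
      (t * β 0) • b 0 - ((1 - t) * β 1) • b 1 - (t * α 0) • a 0 := by
  ext j
  simp [xv, sg, pv, dv]
  ring

lemma s6_x2 (a b : Fin 3 → Fin 4 → K) (α β : Fin 3 → K) (t : K) (h : Rel a b α β) :
    xv a b α β ![0, 1, t] 2 =
      t • ((1 - t) • (β 0 • b 0 + β 1 • b 1 + β 2 • b 2) - α 0 • a 0
        - ((1 - t) * β 1) • b 1 + (t * β 0) • b 0) := by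
  ext j
  have hj := congrFun h j
  simp only [Pi.add_apply, Pi.smul_apply, smul_eq_mul] at hj
  simp [xv, sg, pv, dv]
  linear_combination (t * (1 - t)) * hj

lemma s6_formula (a b : Fin 3 → Fin 4 → K) (α β : Fin 3 → K) (t : K) (h : Rel a b α β)
    (y : Fin 4 → K) :
    det4 (xv a b α β ![0, 1, t] 0) (xv a b α β ![0, 1, t] 1) (xv a b α β ![0, 1, t] 2) y =
      -t ^ 2 * (1 - t) * α 0 * (β 0 * β 1 * det4 (a 0) (b 0) (b 1) y
        - (1 - t) * β 1 * β 2 * det4 (a 0) (b 1) (b 2) y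
        + t * β 0 * β 2 * det4 (a 0) (b 0) (b 2) y) := by
  rw [s6_x0, s6_x1, s6_x2 a b α β t h]
  simp only [s6_det4, Pi.add_apply, Pi.sub_apply, Pi.smul_apply, smul_eq_mul]
  ring

lemma s6_cramer (p q r s y : Fin 4 → K) :
    det4 p q r s • y = det4 y q r s • p + det4 p y r s • q + det4 p q y s • r
      + det4 p q r y • s := by
  ext j
  simp only [s6_det4, Pi.add_apply, Pi.smul_apply, smul_eq_mul]
  fin_cases j <;> simp <;> ring

/-- if all the determinants vanish then `y` is a multiple of `a 0` -/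
lemma s6_mult [Infinite K] (a b : Fin 3 → Fin 4 → K) (P : (Fin 3 → K) → (Fin 3 → K) → Prop)
    (hP : ∀ α β, P α β → Rel a b α β)
    (hex : ∀ i : Fin 3, ∃ α β, P α β ∧ β i = 0 ∧ (∀ j, j ≠ i → β j ≠ 0) ∧ ∀ j, α j ≠ 0)
    (hD : det4 (a 0) (b 0) (b 1) (b 2) ≠ 0) (y : Fin 4 → K)
    (h0 : ∀ α β τ, P α β → det4 (xv a b α β τ 0) (xv a b α β τ 1) (xv a b α β τ 2) y = 0) :
    ∃ c : K, y = c • a 0 := by
  classical
  obtain ⟨t, ht⟩ := Infinite.exists_notMem_finset ({0, 1} : Finset K)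
  rw [Finset.mem_insert, Finset.mem_singleton, not_or] at ht
  have ht0 : t ≠ 0 := ht.1
  have ht1 : 1 - t ≠ 0 := sub_ne_zero.2 (Ne.symm ht.2)
  have key : ∀ α β, P α β → α 0 ≠ 0 →
      β 0 * β 1 * det4 (a 0) (b 0) (b 1) y
        - (1 - t) * β 1 * β 2 * det4 (a 0) (b 1) (b 2) y
        + t * β 0 * β 2 * det4 (a 0) (b 0) (b 2) y = 0 := by
    intro α β h hα
    have h1 := h0 α β ![0, 1, t] h
    rw [s6_formula a b α β t (hP α β h) y] at h1
    rcases mul_eq_zero.1 h1 with h2 | h2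
    · exfalso
      rcases mul_eq_zero.1 h2 with h3 | h3
      · rcases mul_eq_zero.1 h3 with h4 | h4
        · exact (neg_ne_zero.2 (pow_ne_zero 2 ht0)) h4
        · exact ht1 h4
      · exact hα h3
    · exact h2
  have h12 : det4 (a 0) (b 1) (b 2) y = 0 := by
    obtain ⟨α, β, h, hb, hb', ha⟩ := hex 0
    have h1 := key α β h (ha 0)
    rw [hb] at h1
    have h2 : (1 - t) * β 1 * β 2 ≠ 0 :=
      mul_ne_zero (mul_ne_zero ht1 (hb' 1 (by decide))) (hb' 2 (by decide))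
    have h3 : (1 - t) * β 1 * β 2 * det4 (a 0) (b 1) (b 2) y = 0 := by
      linear_combination -h1
    exact (mul_eq_zero.1 h3).resolve_left h2
  have h02 : det4 (a 0) (b 0) (b 2) y = 0 := by
    obtain ⟨α, β, h, hb, hb', ha⟩ := hex 1
    have h1 := key α β h (ha 0)
    rw [hb] at h1
    have h2 : t * β 0 * β 2 ≠ 0 :=
      mul_ne_zero (mul_ne_zero ht0 (hb' 0 (by decide))) (hb' 2 (by decide))
    have h3 : t * β 0 * β 2 * det4 (a 0) (b 0) (b 2) y = 0 := by
      linear_combination h1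
    exact (mul_eq_zero.1 h3).resolve_left h2
  have h01 : det4 (a 0) (b 0) (b 1) y = 0 := by
    obtain ⟨α, β, h, hb, hb', ha⟩ := hex 2
    have h1 := key α β h (ha 0)
    rw [hb] at h1
    have h2 : β 0 * β 1 ≠ 0 := mul_ne_zero (hb' 0 (by decide)) (hb' 1 (by decide))
    have h3 : β 0 * β 1 * det4 (a 0) (b 0) (b 1) y = 0 := by
      linear_combination h1
    exact (mul_eq_zero.1 h3).resolve_left h2
  have hc := s6_cramer (a 0) (b 0) (b 1) (b 2) y
  have e1 : det4 (a 0) y (b 1) (b 2) = 0 := by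
    rw [← h12]
    simp only [s6_det4]
    ring
  have e2 : det4 (a 0) (b 0) y (b 2) = 0 := by
    have : det4 (a 0) (b 0) y (b 2) = - det4 (a 0) (b 0) (b 2) y := by
      simp only [s6_det4]
      ring
    rw [this, h02, neg_zero]
  rw [e1, e2, h01, zero_smul, zero_smul, zero_smul, add_zero, add_zero, add_zero] at hc
  refine ⟨(det4 (a 0) (b 0) (b 1) (b 2))⁻¹ * det4 y (b 0) (b 1) (b 2), ?_⟩
  rw [mul_smul, ← hc, smul_smul, inv_mul_cancel₀ hD, one_smul]

/-- cyclic symmetry of the new triple -/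
lemma s6_shift (a b : Fin 3 → Fin 4 → K) (α β τ : Fin 3 → K) (h : Rel a b α β) (i : Fin 3) :
    xv (fun i => a (i + 1)) (fun i => b (i + 1)) (fun i => α (i + 1)) (fun i => β (i + 1))
      (fun i => τ (i + 1)) i = xv a b α β τ (i + 1) := by
  have hp : pv (fun i => a (i + 1)) (fun i => b (i + 1)) (fun i => α (i + 1))
      (fun i => β (i + 1)) (fun i => τ (i + 1)) = pv a b α β τ := by
    ext j
    have hj := congrFun h j
    simp only [Pi.add_apply, Pi.smul_apply, smul_eq_mul] at hj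
    simp [sg, pv, dv]
    linear_combination (τ 2 - τ 0) * hj
  unfold xv
  rw [hp]
  unfold sg
  fin_cases i <;> rfl

/-- S6: three new vectors -/
theorem nz3 [Infinite K] (a b : Fin 3 → Fin 4 → K) (h : GP a b) (α₁ β₁ α₂ β₂ : Fin 3 → K)
    (r₁ : Rel a b α₁ β₁) (r₂ : Rel a b α₂ β₂)
    (hα : ∀ i, ∃ s t : K, (s • α₁ + t • α₂) i = 0 ∧ (∀ j, j ≠ i → (s • α₁ + t • α₂) j ≠ 0) ∧
        (∀ j, (s • β₁ + t • β₂) j ≠ 0))
    (hβ : ∀ i, ∃ s t : K, (s • β₁ + t • β₂) i = 0 ∧ (∀ j, j ≠ i → (s • β₁ + t • β₂) j ≠ 0) ∧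
        (∀ j, (s • α₁ + t • α₂) j ≠ 0))
    (y : Fin 4 → K) (hy : y ≠ 0) :
    ∃ (s t : K) (τ : Fin 3 → K),
      det4 (xv a b (s • α₁ + t • α₂) (s • β₁ + t • β₂) τ 0)
        (xv a b (s • α₁ + t • α₂) (s • β₁ + t • β₂) τ 1)
        (xv a b (s • α₁ + t • α₂) (s • β₁ + t • β₂) τ 2) y ≠ 0 := by
  by_contra hcon
  push Not at hcon
  have hrel : ∀ s t : K, Rel a b (s • α₁ + t • α₂) (s • β₁ + t • β₂) := by
    intro s t
    have e1 := r₁
    have e2 := r₂
    unfold Rel at *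
    ext j
    have h1 := congrFun e1 j
    have h2 := congrFun e2 j
    simp only [Pi.add_apply, Pi.smul_apply, smul_eq_mul] at h1 h2 ⊢
    linear_combination s * h1 + t * h2
  obtain ⟨c, hc⟩ := s6_mult a b
    (fun α β => ∃ s t : K, α = s • α₁ + t • α₂ ∧ β = s • β₁ + t • β₂)
    (by
      rintro α β ⟨s, t, rfl, rfl⟩
      exact hrel s t)
    (by
      intro i
      obtain ⟨s, t, h1, h2, h3⟩ := hβ i
      exact ⟨_, _, ⟨s, t, rfl, rfl⟩, h1, h2, h3⟩)
    (by
      have h1 := h.2.2 0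
      intro h2
      apply h1
      have : det4 (b 0) (b 1) (b 2) (a 0) = - det4 (a 0) (b 0) (b 1) (b 2) := by
        simp only [s6_det4]
        ring
      rw [this, h2, neg_zero]) y
    (by
      rintro α β τ ⟨s, t, rfl, rfl⟩
      exact hcon s t τ)
  obtain ⟨c', hc'⟩ := s6_mult (fun i => a (i + 1)) (fun i => b (i + 1))
    (fun α β => ∃ s t : K, α = (fun i => (s • α₁ + t • α₂) (i + 1)) ∧
      β = fun i => (s • β₁ + t • β₂) (i + 1))
    (by
      rintro α β ⟨s, t, rfl, rfl⟩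
      have h1 := hrel s t
      unfold Rel at *
      ext j
      have h2 := congrFun h1 j
      simp only [Pi.add_apply, Pi.smul_apply, smul_eq_mul, zero_add, Fin.isValue,
        show (1 + 1 : Fin 3) = 2 from rfl, show (2 + 1 : Fin 3) = 0 from rfl] at h2 ⊢
      linear_combination h2)
    (by
      intro i
      obtain ⟨s, t, h1, h2, h3⟩ := hβ (i + 1)
      refine ⟨_, _, ⟨s, t, rfl, rfl⟩, h1, fun j hj => h2 (j + 1) ?_, fun j => h3 (j + 1)⟩
      intro h4
      exact hj (add_right_cancel h4))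
    (by
      have h1 := h.2.2 1
      intro h2
      apply h1
      have : det4 (b 0) (b 1) (b 2) (a 1) =
          - det4 (a (0 + 1)) (b (0 + 1)) (b (1 + 1)) (b (2 + 1)) := by
        simp only [s6_det4, zero_add, show (1 + 1 : Fin 3) = 2 from rfl,
          show (2 + 1 : Fin 3) = 0 from rfl]
        ring
      rw [this, h2, neg_zero]) y
    (by
      rintro α β τ ⟨s, t, rfl, rfl⟩
      have h1 := hcon s t (fun i => τ (i + 2))
      have h2 : τ = fun i => τ (i + 1 + 2) := by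
        funext i
        congr 1
        rw [add_assoc]
        show i = i + (0 : Fin 3)
        rw [add_zero]
      have e : ∀ i, xv (fun i => a (i + 1)) (fun i => b (i + 1))
          (fun i => (s • α₁ + t • α₂) (i + 1)) (fun i => (s • β₁ + t • β₂) (i + 1)) τ i =
          xv a b (s • α₁ + t • α₂) (s • β₁ + t • β₂) (fun i => τ (i + 2)) (i + 1) := by
        intro i
        rw [← s6_shift a b _ _ _ (hrel s t) i]
        congr 1
      rw [e, e, e, ← h1]
      simp only [zero_add, show (1 + 1 : Fin 3) = 2 from rfl, show (2 + 1 : Fin 3) = 0 from rfl,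
        s6_det4]
      ring)
  have hc0 : c ≠ 0 := by
    rintro rfl
    exact hy (by rw [hc, zero_smul])
  have h1 := h.2.1 0
  apply h1
  have h2 : c • a 0 = c' • a 1 := by
    rw [← hc, hc']
    rfl
  have h3 : a 0 = (c⁻¹ * c') • a 1 := by
    rw [mul_smul, ← h2, smul_smul, inv_mul_cancel₀ hc0, one_smul]
  rw [h3]
  simp only [s6_det4, Pi.smul_apply, smul_eq_mul]
  ring

end Prism.TD
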