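import Pool.Agent.Lib.PrismTD.S1
import Pool.Agent.Lib.PrismTD.S2
import Pool.Agent.Lib.PrismTD.S3
import Pool.Agent.Lib.PrismTD.S4
import Pool.Agent.Lib.PrismTD.S5
import Pool.Agent.Lib.PrismTD.S6

/-!
# MP_343ccd_co, two-degenerate graphs: the new triple
-/

namespace Prism.TD

open Submodule

variable {K : Type*} [Field K]

private def Xp (a b : Fin 3 → Fin 4 → K) (α₁ β₁ α₂ β₂ : Fin 3 → K) (x : Fin 5 → K) (i : Fin 3) :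
    Fin 4 → K :=
  xv a b (x 0 • α₁ + x 1 • α₂) (x 0 • β₁ + x 1 • β₂) ![x 2, x 3, x 4] i

private theorem tau_poly (i : Fin 3) :
    IsPoly (fun x : Fin 5 → K => (![x 2, x 3, x 4] : Fin 3 → K) i) := by
  fin_cases i
  · exact IsPoly.coord 2
  · exact IsPoly.coord 3
  · exact IsPoly.coord 4

private theorem sg_poly (i : Fin 3) :
    IsPoly (fun x : Fin 5 → K => sg (![x 2, x 3, x 4] : Fin 3 → K) i) :=
  (tau_poly _).sub (tau_poly _)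

private theorem lin_poly (c₁ c₂ : K) :
    IsPoly (fun x : Fin 5 → K => x 0 * c₁ + x 1 * c₂) :=
  ((IsPoly.coord 0).mul (IsPoly.const c₁)).add ((IsPoly.coord 1).mul (IsPoly.const c₂))

private theorem Xp_poly (a b : Fin 3 → Fin 4 → K) (α₁ β₁ α₂ β₂ : Fin 3 → K) (i : Fin 3)
    (j : Fin 4) : IsPoly (fun x => Xp a b α₁ β₁ α₂ β₂ x i j) := by
  have h : (fun x => Xp a b α₁ β₁ α₂ β₂ x i j) = fun x : Fin 5 → K =>
      (sg (![x 2, x 3, x 4] : Fin 3 → K) (i + 1) * sg (![x 2, x 3, x 4] : Fin 3 → K) (i + 2) *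
        (x 0 * α₁ i + x 1 * α₂ i)) * a i j +
      (![x 2, x 3, x 4] : Fin 3 → K) i *
        (sg (![x 2, x 3, x 4] : Fin 3 → K) 0 *
          ((x 0 * α₁ 1 + x 1 * α₂ 1) * a 1 j - (x 0 * β₁ 1 + x 1 * β₂ 1) * b 1 j) -
        sg (![x 2, x 3, x 4] : Fin 3 → K) 1 *
          ((x 0 * α₁ 0 + x 1 * α₂ 0) * a 0 j - (x 0 * β₁ 0 + x 1 * β₂ 0) * b 0 j)) := by
    funext x
    simp only [Xp, xv, pv, dv, Pi.add_apply, Pi.sub_apply, Pi.smul_apply, smul_eq_mul]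
  rw [h]
  refine ((((sg_poly _).mul (sg_poly _)).mul (lin_poly _ _)).mul (IsPoly.const _)).add
    ((tau_poly _).mul (((sg_poly _).mul (((lin_poly _ _).mul (IsPoly.const _)).sub
      ((lin_poly _ _).mul (IsPoly.const _)))).sub ((sg_poly _).mul
      (((lin_poly _ _).mul (IsPoly.const _)).sub ((lin_poly _ _).mul (IsPoly.const _))))))

private theorem Xp_mk (a b : Fin 3 → Fin 4 → K) (α₁ β₁ α₂ β₂ : Fin 3 → K) (s t : K)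
    (τ : Fin 3 → K) (i : Fin 3) :
    Xp a b α₁ β₁ α₂ β₂ ![s, t, τ 0, τ 1, τ 2] i =
      xv a b (s • α₁ + t • α₂) (s • β₁ + t • β₂) τ i := by
  have h : (![τ 0, τ 1, τ 2] : Fin 3 → K) = τ := by
    funext j
    fin_cases j <;> rfl
  conv_rhs => rw [← h]
  rfl

private theorem Rel.comb {a b : Fin 3 → Fin 4 → K} {α₁ β₁ α₂ β₂ : Fin 3 → K}
    (r₁ : Rel a b α₁ β₁) (r₂ : Rel a b α₂ β₂) (s t : K) :
    Rel a b (s • α₁ + t • α₂) (s • β₁ + t • β₂) := by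
  unfold Rel at *
  simp only [Pi.add_apply, Pi.smul_apply, smul_eq_mul, add_smul, mul_smul]
  have e : s • (α₁ 0 • a 0 + α₁ 1 • a 1 + α₁ 2 • a 2) +
      t • (α₂ 0 • a 0 + α₂ 1 • a 1 + α₂ 2 • a 2) =
      s • (β₁ 0 • b 0 + β₁ 1 • b 1 + β₁ 2 • b 2) +
      t • (β₂ 0 • b 0 + β₂ 1 • b 1 + β₂ 2 • b 2) := by rw [r₁, r₂]
  simp only [smul_add] at e
  calc _ = s • α₁ 0 • a 0 + s • α₁ 1 • a 1 + s • α₁ 2 • a 2 +
      (t • α₂ 0 • a 0 + t • α₂ 1 • a 1 + t • α₂ 2 • a 2) := by abel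
    _ = _ := e
    _ = _ := by abel

/-- the new triple -/
theorem add_triple [Infinite K] (a b : Fin 3 → Fin 4 → K) (h : GP a b) {E : Type*} [Finite E]
    (φ : E → Fin 4 → K) :
    ∃ x : Fin 3 → Fin 4 → K,
      (∀ i, det4 (x (i + 1)) (x (i + 2)) (a (i + 1)) (a (i + 2)) = 0) ∧
      (∀ i, det4 (x (i + 1)) (x (i + 2)) (b (i + 1)) (b (i + 2)) = 0) ∧
      (∀ i e f g, LinearIndependent K ![φ e, φ f, φ g] → det4 (x i) (φ e) (φ f) (φ g) ≠ 0) ∧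
      (∀ i e f, LinearIndependent K ![φ e, φ f] → ¬ InLine (a (i + 1)) (a (i + 2)) (φ e) (φ f) →
        ¬ InLine (b (i + 1)) (b (i + 2)) (φ e) (φ f) →
        det4 (x (i + 1)) (x (i + 2)) (φ e) (φ f) ≠ 0) ∧
      (∀ e, φ e ≠ 0 → det4 (x 0) (x 1) (x 2) (φ e) ≠ 0) := by
  obtain ⟨α₁, β₁, α₂, β₂, r₁, r₂, hα, hβ⟩ := rel_exists a b h
  set X := Xp a b α₁ β₁ α₂ β₂ with hX
  let ι₁ := {q : Fin 3 × E × E × E // LinearIndependent K ![φ q.2.1, φ q.2.2.1, φ q.2.2.2]}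
  let ι₂ := {q : Fin 3 × E × E // LinearIndependent K ![φ q.2.1, φ q.2.2] ∧
    ¬ InLine (a (q.1 + 1)) (a (q.1 + 2)) (φ q.2.1) (φ q.2.2) ∧
    ¬ InLine (b (q.1 + 1)) (b (q.1 + 2)) (φ q.2.1) (φ q.2.2)}
  let ι₃ := {e : E // φ e ≠ 0}
  let F₁ : ι₁ → (Fin 5 → K) → K := fun q x =>
    det4 (X x q.1.1) (φ q.1.2.1) (φ q.1.2.2.1) (φ q.1.2.2.2)
  let F₂ : ι₂ → (Fin 5 → K) → K := fun q x =>
    det4 (X x (q.1.1 + 1)) (X x (q.1.1 + 2)) (φ q.1.2.1) (φ q.1.2.2)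
  let F₃ : ι₃ → (Fin 5 → K) → K := fun q x => det4 (X x 0) (X x 1) (X x 2) (φ q.1)
  have hp : ∀ i j, IsPoly (fun x => X x i j) := fun i j => Xp_poly a b α₁ β₁ α₂ β₂ i j
  have hc : ∀ (v : Fin 4 → K) j, IsPoly (fun _ : Fin 5 → K => v j) := fun v j => IsPoly.const _
  obtain ⟨x, hx⟩ := exists_common (K := K) (n := 5) (ι := ι₁ ⊕ ι₂ ⊕ ι₃)
    (Sum.elim F₁ (Sum.elim F₂ F₃)) (by
      rintro (q | q | q)
      · exact IsPoly.det4 (hp _) (hc _) (hc _) (hc _)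
      · exact IsPoly.det4 (hp _) (hp _) (hc _) (hc _)
      · exact IsPoly.det4 (hp _) (hp _) (hp _) (hc _)) (by
      rintro (q | q | q)
      · obtain ⟨s, t, τ, hne⟩ := nz1 a b h α₁ β₁ α₂ β₂ r₁ r₂ hα hβ _ _ _ q.2 q.1.1
        refine ⟨![s, t, τ 0, τ 1, τ 2], ?_⟩
        change det4 (X _ q.1.1) _ _ _ ≠ 0
        rw [hX, Xp_mk]
        exact hne
      · obtain ⟨s, t, τ, hne⟩ := nz2 a b h α₁ β₁ α₂ β₂ r₁ r₂ hα hβ _ _ q.2.1 q.1.1 q.2.2.1 q.2.2.2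
        refine ⟨![s, t, τ 0, τ 1, τ 2], ?_⟩
        change det4 (X _ (q.1.1 + 1)) (X _ (q.1.1 + 2)) _ _ ≠ 0
        rw [hX, Xp_mk, Xp_mk]
        exact hne
      · obtain ⟨s, t, τ, hne⟩ := nz3 a b h α₁ β₁ α₂ β₂ r₁ r₂ hα hβ _ q.2
        refine ⟨![s, t, τ 0, τ 1, τ 2], ?_⟩
        change det4 (X _ 0) (X _ 1) (X _ 2) _ ≠ 0
        rw [hX, Xp_mk, Xp_mk, Xp_mk]
        exact hne)
  refine ⟨X x, fun i => ?_, fun i => ?_, fun i e f g hi => ?_, fun i e f hi ha hb => ?_,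
    fun e he => ?_⟩
  · exact xv_dep_a _ _ _ _ _ _
  · exact xv_dep_b _ _ _ _ _ (r₁.comb r₂ _ _) _
  · exact hx (Sum.inl ⟨(i, e, f, g), hi⟩)
  · exact hx (Sum.inr (Sum.inl ⟨(i, e, f), hi, ha, hb⟩))
  · exact hx (Sum.inr (Sum.inr ⟨e, he⟩))

end Prism.TD
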