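import Pool.Agent.Lib.PrismTD.S1

/-!
# MP_343ccd_co, two-degenerate graphs: generic triples
-/

namespace Prism.TD

open Submodule

variable {K : Type*} [Field K]

private theorem li2 {x y : Fin 4 → K} (hy : y ≠ 0) (hx : x ∉ span K {y}) :
    LinearIndependent K ![x, y] := by
  have h1 : LinearIndependent K ![y] := by
    rw [linearIndependent_unique_iff]
    exact hy
  have h2 : LinearIndependent K (Fin.cons x ![y] : Fin 2 → Fin 4 → K) := by
    rw [linearIndependent_finCons]
    refine ⟨h1, ?_⟩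
    rw [Matrix.range_cons, Matrix.range_empty, Set.union_empty]
    exact hx
  exact h2

private theorem li3 {x y z : Fin 4 → K} (h : LinearIndependent K ![y, z])
    (hx : x ∉ span K {y, z}) : LinearIndependent K ![x, y, z] := by
  have h2 : LinearIndependent K (Fin.cons x ![y, z] : Fin 3 → Fin 4 → K) := by
    rw [linearIndependent_finCons]
    refine ⟨h, ?_⟩
    rw [Matrix.range_cons, Matrix.range_cons, Matrix.range_empty, Set.union_empty,
      Set.singleton_union]
    exact hx
  exact h2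

private theorem li4 {x y z w : Fin 4 → K} (h : LinearIndependent K ![y, z, w])
    (hx : x ∉ span K {y, z, w}) : LinearIndependent K ![x, y, z, w] := by
  have h2 : LinearIndependent K (Fin.cons x ![y, z, w] : Fin 4 → Fin 4 → K) := by
    rw [linearIndependent_finCons]
    refine ⟨h, ?_⟩
    rw [Matrix.range_cons, Matrix.range_cons, Matrix.range_cons, Matrix.range_empty,
      Set.union_empty, Set.singleton_union, Set.singleton_union]
    exact hx
  exact h2

private theorem notMem_two {x y z : Fin 4 → K} (h : x ∉ span K {y, z, z}) :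
    x ∉ span K {y, z} := by
  rwa [Set.pair_eq_singleton z] at h

private theorem notMem_one {x y : Fin 4 → K} (h : x ∉ span K {y, y, y}) : x ∉ span K {y} := by
  rwa [Set.pair_eq_singleton y, Set.pair_eq_singleton y] at h

private theorem ne_zero_of {x : Fin 4 → K} {s : Set (Fin 4 → K)} (h : x ∉ span K s) : x ≠ 0 := by
  rintro rfl
  exact h (zero_mem _)

private theorem det_rev {x y z w : Fin 4 → K} (h : LinearIndependent K ![x, y, z, w]) :
    det4 w z y x ≠ 0 := by
  rw [det4_ne_zero_iff]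
  have e : ![w, z, y, x] = ![x, y, z, w] ∘ (Fin.rev : Fin 4 → Fin 4) := by
    ext i j
    fin_cases i <;> rfl
  rw [e]
  exact h.comp _ Fin.rev_injective

private theorem det_sw {x y z w : Fin 4 → K} (h : LinearIndependent K ![x, y, z, w]) :
    det4 z w x y ≠ 0 := by
  rw [det4_ne_zero_iff]
  have e : ![z, w, x, y] = ![x, y, z, w] ∘ (![2, 3, 0, 1] : Fin 4 → Fin 4) := by
    ext i j
    fin_cases i <;> rfl
  rw [e]
  exact h.comp _ (by decide)

private theorem det_a {x y z w : Fin 4 → K} (h : LinearIndependent K ![x, y, z, w]) :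
    det4 y z w x ≠ 0 := by
  rw [det4_ne_zero_iff]
  have e : ![y, z, w, x] = ![x, y, z, w] ∘ (![1, 2, 3, 0] : Fin 4 → Fin 4) := by
    ext i j
    fin_cases i <;> rfl
  rw [e]
  exact h.comp _ (by decide)

private theorem det_b {x y z w : Fin 4 → K} (h : LinearIndependent K ![x, y, z, w]) :
    det4 z w y x ≠ 0 := by
  rw [det4_ne_zero_iff]
  have e : ![z, w, y, x] = ![x, y, z, w] ∘ (![2, 3, 1, 0] : Fin 4 → Fin 4) := by
    ext i j
    fin_cases i <;> rfl
  rw [e]
  exact h.comp _ (by decide)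

variable [Infinite K]

/-- a vector outside all spans of three vectors of a finite family -/
private theorem gen {I : Type*} [Finite I] (w : I → Fin 4 → K) :
    ∃ x : Fin 4 → K, ∀ i j k, x ∉ span K {w i, w j, w k} := by
  by_contra hcon
  push Not at hcon
  have hU : ⋃ q : I × I × I, ((span K {w q.1, w q.2.1, w q.2.2} : Submodule K (Fin 4 → K)) :
      Set (Fin 4 → K)) = Set.univ := by
    rw [Set.eq_univ_iff_forall]
    intro x
    obtain ⟨i, j, k, h⟩ := hcon x
    exact Set.mem_iUnion.2 ⟨(i, j, k), h⟩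
  obtain ⟨⟨i, j, k⟩, hq⟩ := Subspace.exists_eq_top_of_iUnion_eq_univ hU
  have h1 : Module.finrank K (span K (Set.range ![w i, w j, w k])) ≤ 3 := by
    have := finrank_range_le_card (R := K) ![w i, w j, w k]
    rwa [Fintype.card_fin] at this
  have h2 : Set.range ![w i, w j, w k] = {w i, w j, w k} := by
    rw [Matrix.range_cons, Matrix.range_cons, Matrix.range_cons, Matrix.range_empty,
      Set.union_empty, Set.singleton_union, Set.singleton_union]
  rw [h2, hq, finrank_top, Module.finrank_fin_fun] at h1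
  omega

/-- S8: a generic triple -/
theorem generic_triple {E : Type*} [Finite E] (φ : E → Fin 4 → K) :
    ∃ a : Fin 3 → Fin 4 → K, LinearIndependent K a ∧
      ∀ i e f, a i ∉ span K {φ e, φ f} := by
  obtain ⟨a0, h0⟩ := gen (Sum.elim φ (fun _ : Unit => (0 : Fin 4 → K)))
  obtain ⟨a1, h1⟩ := gen (Sum.elim φ (fun _ : Unit => a0))
  obtain ⟨a2, h2⟩ := gen (Sum.elim φ ![a0, a1])
  refine ⟨![a2, a1, a0], ?_, ?_⟩
  · apply li3
    · exact li2 (ne_zero_of (h0 (Sum.inr ()) (Sum.inr ()) (Sum.inr ())))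
        (notMem_one (h1 (Sum.inr ()) (Sum.inr ()) (Sum.inr ())))
    · exact notMem_two (h2 (Sum.inr 1) (Sum.inr 0) (Sum.inr 0))
  · intro i e f
    fin_cases i
    · exact notMem_two (h2 (Sum.inl e) (Sum.inl f) (Sum.inl f))
    · exact notMem_two (h1 (Sum.inl e) (Sum.inl f) (Sum.inl f))
    · exact notMem_two (h0 (Sum.inl e) (Sum.inl f) (Sum.inl f))

/-- S8: a generic second triple -/
theorem generic_triple' {E : Type*} [Finite E] (φ : E → Fin 4 → K) (a : Fin 3 → Fin 4 → K)
    (ha : LinearIndependent K a) :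
    ∃ b : Fin 3 → Fin 4 → K, GP a b ∧ ∀ i e f, b i ∉ span K {φ e, φ f} := by
  obtain ⟨b0, h0⟩ := gen (Sum.elim φ a)
  obtain ⟨b1, h1⟩ := gen (Sum.elim φ (Sum.elim a (fun _ : Unit => b0)))
  obtain ⟨b2, h2⟩ := gen (Sum.elim φ (Sum.elim a ![b0, b1]))
  have hpq : ∀ i : Fin 3, LinearIndependent K ![a (i + 1), a (i + 2)] := by
    intro i
    have e : ![a (i + 1), a (i + 2)] = a ∘ (![i + 1, i + 2] : Fin 2 → Fin 3) := by
      ext k j
      fin_cases k <;> rfl
    rw [e]
    refine ha.comp _ ?_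
    intro k l hkl
    fin_cases k <;> fin_cases l <;> fin_cases i <;> first | rfl | exact absurd hkl (by decide)
  have h3 : LinearIndependent K ![a 0, a 1, a 2] := by
    have e : ![a 0, a 1, a 2] = a := by
      ext k j
      fin_cases k <;> rfl
    rw [e]
    exact ha
  have hne : ∀ i, a i ≠ 0 := ha.ne_zero
  refine ⟨![b0, b1, b2], ⟨?_, ?_, ?_⟩, ?_⟩
  · intro i j
    fin_cases j
    · -- b1, b2
      exact det_b (li4 (li3 (hpq i)
        (notMem_two (h1 (Sum.inr (Sum.inl (i + 1))) (Sum.inr (Sum.inl (i + 2)))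
          (Sum.inr (Sum.inl (i + 2))))))
        (h2 (Sum.inr (Sum.inr 1)) (Sum.inr (Sum.inl (i + 1))) (Sum.inr (Sum.inl (i + 2)))))
    · -- b2, b0
      exact det_sw (li4 (li3 (hpq i)
        (notMem_two (h0 (Sum.inr (i + 1)) (Sum.inr (i + 2)) (Sum.inr (i + 2)))))
        (h2 (Sum.inr (Sum.inr 0)) (Sum.inr (Sum.inl (i + 1))) (Sum.inr (Sum.inl (i + 2)))))
    · -- b0, b1
      exact det_b (li4 (li3 (hpq i)
        (notMem_two (h0 (Sum.inr (i + 1)) (Sum.inr (i + 2)) (Sum.inr (i + 2)))))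
        (h1 (Sum.inr (Sum.inr ())) (Sum.inr (Sum.inl (i + 1))) (Sum.inr (Sum.inl (i + 2)))))
  · intro i
    fin_cases i
    · exact det_a (li4 h3 (h0 (Sum.inr 0) (Sum.inr 1) (Sum.inr 2)))
    · exact det_a (li4 h3 (h1 (Sum.inr (Sum.inl 0)) (Sum.inr (Sum.inl 1)) (Sum.inr (Sum.inl 2))))
    · exact det_a (li4 h3 (h2 (Sum.inr (Sum.inl 0)) (Sum.inr (Sum.inl 1)) (Sum.inr (Sum.inl 2))))
  · intro i
    have k1 : LinearIndependent K ![b0, a i] := li2 (hne i)
      (notMem_one (h0 (Sum.inr i) (Sum.inr i) (Sum.inr i)))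
    have k2 : LinearIndependent K ![b1, b0, a i] := li3 k1
      (notMem_two (h1 (Sum.inr (Sum.inr ())) (Sum.inr (Sum.inl i)) (Sum.inr (Sum.inl i))))
    have k3 : LinearIndependent K ![b2, b1, b0, a i] := li4 k2
      (h2 (Sum.inr (Sum.inr 1)) (Sum.inr (Sum.inr 0)) (Sum.inr (Sum.inl i)))
    have k4 : det4 b0 b1 b2 (a i) ≠ 0 := by
      rw [det4_ne_zero_iff]
      have e : ![b0, b1, b2, a i] = ![b2, b1, b0, a i] ∘ (![2, 1, 0, 3] : Fin 4 → Fin 4) := by
        ext k j
        fin_cases k <;> rfl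
      rw [e]
      exact k3.comp _ (by decide)
    exact k4
  · intro i e f
    fin_cases i
    · exact notMem_two (h0 (Sum.inl e) (Sum.inl f) (Sum.inl f))
    · exact notMem_two (h1 (Sum.inl e) (Sum.inl f) (Sum.inl f))
    · exact notMem_two (h2 (Sum.inl e) (Sum.inl f) (Sum.inl f))

end Prism.TD
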